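import Mathlib

/-!
A Freiman type lemma with fibres (differences).

`IsFH A φ` : `φ : G → W` respects the relations `a - b = c - d` inside `A`.
`rk φ X`   : dimension of the span of the differences `φ x - φ y`, `x, y ∈ X`.

Main result `freiman_fibre`:  `(rk φ A + 2) * |A| ≤ 6 * |A - A|`.
-/

open scoped Pointwise
open Finset

namespace RamCay384

variable {G : Type*} [AddCommGroup G] [DecidableEq G]
variable {W : Type*} [AddCommGroup W] [Module ℚ W]

/-- `φ` respects the difference relations of `A`. -/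
def IsFH (A : Finset G) (φ : G → W) : Prop :=
  ∀ a ∈ A, ∀ b ∈ A, ∀ c ∈ A, ∀ d ∈ A, a - b = c - d → φ a - φ b = φ c - φ d

/-- The set of differences of values. -/
def dset (φ : G → W) (X : Finset G) : Set W := {w | ∃ x ∈ X, ∃ y ∈ X, w = φ x - φ y}

/-- The rank of `X` with respect to `φ`. -/
noncomputable def rk (φ : G → W) (X : Finset G) : ℕ :=
  Module.finrank ℚ (Submodule.span ℚ (dset φ X))

/-- Claim 1. -/
theorem claim1 [FiniteDimensional ℚ W] {A R : Finset G} {φ : G → W} (hφ : IsFH A φ)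
    (hRA : R ⊆ A) (hR : R.Nonempty) :
    rk φ A * R.card ≤ (A - A).card + rk φ R * R.card := by
  classical
  obtain ⟨r0, hr0⟩ := hR
  set U := Submodule.span ℚ (dset φ R) with hU
  have hUmem : ∀ x ∈ R, ∀ y ∈ R, φ x - φ y ∈ U := fun x hx y hy =>
    Submodule.subset_span ⟨x, hx, y, hy, rfl⟩
  let q : G → W ⧸ U := fun a => Submodule.Quotient.mk (φ a)
  have hq : ∀ a b, q a = q b ↔ φ a - φ b ∈ U := fun a b => Submodule.Quotient.eq U
  let T : Finset (W ⧸ U) := A.image q
  -- representatives
  have hrep : ∀ τ : W ⧸ U, ∃ a, τ ∈ T → (a ∈ A ∧ q a = τ) := by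
    intro τ
    by_cases h : τ ∈ T
    · obtain ⟨a, ha, hqa⟩ := Finset.mem_image.mp h
      exact ⟨a, fun _ => ⟨ha, hqa⟩⟩
    · exact ⟨r0, fun h' => absurd h' h⟩
  choose rep hrep using hrep
  -- |T| * |R| ≤ |A - A|
  have h1 : T.card * R.card ≤ (A - A).card := by
    rw [← Finset.card_product]
    apply Finset.card_le_card_of_injOn (fun p : (W ⧸ U) × G => rep p.1 - p.2)
    · rintro ⟨τ, r⟩ h
      have h' := Finset.mem_product.mp (Finset.mem_coe.mp h)
      exact Finset.mem_coe.mpr (Finset.sub_mem_sub (hrep τ h'.1).1 (hRA h'.2))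
    · rintro ⟨τ, r⟩ h ⟨τ', r'⟩ h2 heq
      have h' := Finset.mem_product.mp (Finset.mem_coe.mp h)
      have h2' := Finset.mem_product.mp (Finset.mem_coe.mp h2)
      simp only at heq h' h2'
      have hA1 := hrep τ h'.1
      have hA2 := hrep τ' h2'.1
      have e1 := hφ _ hA1.1 _ (hRA h'.2) _ hA2.1 _ (hRA h2'.2) heq
      have e2 : φ (rep τ) - φ (rep τ') ∈ U := by
        have : φ (rep τ) - φ (rep τ') = φ r - φ r' := by
          have := sub_eq_sub_iff_sub_eq_sub.mp e1
          exact this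
        rw [this]; exact hUmem _ h'.2 _ h2'.2
      have e3 : q (rep τ) = q (rep τ') := (hq _ _).mpr e2
      rw [hA1.2, hA2.2] at e3
      subst e3
      simp only [sub_right_inj] at heq
      rw [heq]
  -- span of A-differences is contained in U + span of the representatives' differences
  let F : Finset W := T.image (fun τ => φ (rep τ) - φ r0)
  have h2 : Submodule.span ℚ (dset φ A) ≤ U ⊔ Submodule.span ℚ (F : Set W) := by
    have key : ∀ a ∈ A, φ a - φ r0 ∈ U ⊔ Submodule.span ℚ (F : Set W) := by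
      intro a ha
      have hT : q a ∈ T := Finset.mem_image_of_mem _ ha
      have hr := hrep (q a) hT
      have e1 : φ a - φ (rep (q a)) ∈ U := (hq _ _).mp hr.2.symm
      have e2 : φ (rep (q a)) - φ r0 ∈ Submodule.span ℚ (F : Set W) := by
        apply Submodule.subset_span
        exact Finset.mem_coe.mpr (Finset.mem_image_of_mem (fun τ => φ (rep τ) - φ r0) hT)
      have : φ a - φ r0 = (φ a - φ (rep (q a))) + (φ (rep (q a)) - φ r0) := by abel
      rw [this]
      exact Submodule.add_mem_sup e1 e2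
    rw [Submodule.span_le]
    rintro w ⟨x, hx, y, hy, rfl⟩
    have : φ x - φ y = (φ x - φ r0) - (φ y - φ r0) := by abel
    rw [this]
    exact Submodule.sub_mem _ (key x hx) (key y hy)
  have h3 : rk φ A ≤ rk φ R + T.card := by
    calc rk φ A ≤ Module.finrank ℚ ↥(U ⊔ Submodule.span ℚ (F : Set W)) :=
          Submodule.finrank_mono h2
      _ ≤ Module.finrank ℚ U + Module.finrank ℚ (Submodule.span ℚ (F : Set W)) :=
          Submodule.finrank_add_le_finrank_add_finrank _ _
      _ ≤ rk φ R + T.card := by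
          apply Nat.add_le_add le_rfl
          exact (finrank_span_finset_le_card F).trans Finset.card_image_le
  calc rk φ A * R.card ≤ (rk φ R + T.card) * R.card := Nat.mul_le_mul_right _ h3
    _ = T.card * R.card + rk φ R * R.card := by ring
    _ ≤ _ := Nat.add_le_add_right h1 _

/-- Removing the top fibre of `X` and the bottom fibre of `Y`. -/
theorem remove_both [DecidableEq W] {A X Y : Finset G} {φ : G → W} (hφ : IsFH A φ)
    (hX : X ⊆ A) (hY : Y ⊆ A) {a z : G} (_ha : a ∈ X) (_hz : z ∈ Y)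
    (Wt : Finset W) (hP : ∀ w ∈ Wt, ∃ x ∈ X, φ x = w + φ a)
    (hN : ∀ w ∈ Wt, ∀ x ∈ X, ∀ y ∈ Y, φ x ≠ φ a → φ y ≠ φ z →
      w ≠ (φ x - φ a) + (φ z - φ y)) :
    ((X.filter fun x => φ x ≠ φ a) - (Y.filter fun y => φ y ≠ φ z)).card +
      Wt.card * (Y.filter fun y => φ y = φ z).card ≤ (X - Y).card := by
  classical
  choose! xw hxw1 hxw2 using hP
  set N := (X.filter fun x => φ x ≠ φ a) - (Y.filter fun y => φ y ≠ φ z) with hNdef
  set Y0 := Y.filter fun y => φ y = φ z with hY0
  have hmem : ∀ p ∈ Wt ×ˢ Y0, xw p.1 - p.2 ∈ X - Y := by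
    rintro ⟨w, y⟩ h
    have h' := Finset.mem_product.mp h
    exact Finset.sub_mem_sub (hxw1 w h'.1) (Finset.mem_filter.mp h'.2).1
  have hinj : Set.InjOn (fun p : W × G => xw p.1 - p.2) (Wt ×ˢ Y0 : Finset (W × G)) := by
    rintro ⟨w, y⟩ h ⟨w', y'⟩ h2 heq
    have h' := Finset.mem_product.mp (Finset.mem_coe.mp h)
    have h2' := Finset.mem_product.mp (Finset.mem_coe.mp h2)
    simp only at heq h' h2'
    have hy := Finset.mem_filter.mp h'.2
    have hy' := Finset.mem_filter.mp h2'.2
    have e1 := hφ _ (hX (hxw1 w h'.1)) _ (hY hy.1) _ (hX (hxw1 w' h2'.1)) _ (hY hy'.1) heq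
    rw [hy.2, hy'.2, hxw2 w h'.1, hxw2 w' h2'.1] at e1
    have e2 : w = w' := by
      have := sub_left_injective e1
      exact add_right_cancel this
    subst e2
    simp only [sub_right_inj] at heq
    rw [heq]
  have hdisj : Disjoint N ((Wt ×ˢ Y0).image (fun p : W × G => xw p.1 - p.2)) := by
    rw [Finset.disjoint_left]
    intro g hg hg2
    obtain ⟨x', hx', y', hy', rfl⟩ := Finset.mem_sub.mp hg
    obtain ⟨⟨w, y⟩, h, heq⟩ := Finset.mem_image.mp hg2
    have h' := Finset.mem_product.mp h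
    simp only at heq h'
    have hy := Finset.mem_filter.mp h'.2
    have hx'' := Finset.mem_filter.mp hx'
    have hy'' := Finset.mem_filter.mp hy'
    have e1 := hφ _ (hX (hxw1 w h'.1)) _ (hY hy.1) _ (hX hx''.1) _ (hY hy''.1) heq
    rw [hy.2, hxw2 w h'.1] at e1
    apply hN w h'.1 x' hx''.1 y' hy''.1 hx''.2 hy''.2
    have : w = (w + φ a - φ z) - φ a + φ z := by abel
    rw [this, e1]; abel
  have hsub : N ∪ (Wt ×ˢ Y0).image (fun p : W × G => xw p.1 - p.2) ⊆ X - Y := by
    apply Finset.union_subset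
    · exact Finset.sub_subset_sub (Finset.filter_subset _ _) (Finset.filter_subset _ _)
    · intro g hg
      obtain ⟨p, hp, rfl⟩ := Finset.mem_image.mp hg
      exact hmem p hp
  calc N.card + Wt.card * Y0.card
      = N.card + ((Wt ×ˢ Y0).image (fun p : W × G => xw p.1 - p.2)).card := by
        rw [Finset.card_image_of_injOn hinj, Finset.card_product]
    _ = (N ∪ (Wt ×ˢ Y0).image (fun p : W × G => xw p.1 - p.2)).card := by
        rw [Finset.card_union_of_disjoint hdisj]
    _ ≤ _ := Finset.card_le_card hsub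

/-- Removing only the top fibre of `X`. -/
theorem remove_one [DecidableEq W] {A X Y : Finset G} {φ : G → W} (hφ : IsFH A φ)
    (hX : X ⊆ A) (hY : Y ⊆ A) {a z : G}
    (Wt : Finset W) (hQ : ∀ w ∈ Wt, ∃ y ∈ Y, φ y = φ z - w)
    (hN : ∀ w ∈ Wt, ∀ x ∈ X, ∀ y ∈ Y, φ x ≠ φ a →
      w ≠ (φ x - φ a) + (φ z - φ y)) :
    ((X.filter fun x => φ x ≠ φ a) - Y).card +
      Wt.card * (X.filter fun x => φ x = φ a).card ≤ (X - Y).card := by
  classical
  choose! yw hyw1 hyw2 using hQ
  set N := (X.filter fun x => φ x ≠ φ a) - Y with hNdef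
  set X0 := X.filter fun x => φ x = φ a with hX0
  have hmem : ∀ p ∈ Wt ×ˢ X0, p.2 - yw p.1 ∈ X - Y := by
    rintro ⟨w, x⟩ h
    have h' := Finset.mem_product.mp h
    exact Finset.sub_mem_sub (Finset.mem_filter.mp h'.2).1 (hyw1 w h'.1)
  have hinj : Set.InjOn (fun p : W × G => p.2 - yw p.1) (Wt ×ˢ X0 : Finset (W × G)) := by
    rintro ⟨w, x⟩ h ⟨w', x'⟩ h2 heq
    have h' := Finset.mem_product.mp (Finset.mem_coe.mp h)
    have h2' := Finset.mem_product.mp (Finset.mem_coe.mp h2)
    simp only at heq h' h2'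
    have hx := Finset.mem_filter.mp h'.2
    have hx' := Finset.mem_filter.mp h2'.2
    have e1 := hφ _ (hX hx.1) _ (hY (hyw1 w h'.1)) _ (hX hx'.1) _ (hY (hyw1 w' h2'.1)) heq
    rw [hx.2, hx'.2, hyw2 w h'.1, hyw2 w' h2'.1] at e1
    have e2 : w = w' := by
      have := sub_right_injective e1
      exact sub_right_injective this
    subst e2
    simp only [sub_left_inj] at heq
    rw [heq]
  have hdisj : Disjoint N ((Wt ×ˢ X0).image (fun p : W × G => p.2 - yw p.1)) := by
    rw [Finset.disjoint_left]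
    intro g hg hg2
    obtain ⟨x', hx', y', hy', rfl⟩ := Finset.mem_sub.mp hg
    obtain ⟨⟨w, x⟩, h, heq⟩ := Finset.mem_image.mp hg2
    have h' := Finset.mem_product.mp h
    simp only at heq h'
    have hx := Finset.mem_filter.mp h'.2
    have hx'' := Finset.mem_filter.mp hx'
    have e1 := hφ _ (hX hx.1) _ (hY (hyw1 w h'.1)) _ (hX hx''.1) _ (hY hy') heq
    rw [hx.2, hyw2 w h'.1] at e1
    apply hN w h'.1 x' hx''.1 y' hy' hx''.2
    have : w = (φ a - (φ z - w)) - φ a + φ z := by abel
    rw [this, e1]; abel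
  have hsub : N ∪ (Wt ×ˢ X0).image (fun p : W × G => p.2 - yw p.1) ⊆ X - Y := by
    apply Finset.union_subset
    · exact Finset.sub_subset_sub (Finset.filter_subset _ _) (Finset.Subset.refl _)
    · intro g hg
      obtain ⟨p, hp, rfl⟩ := Finset.mem_image.mp hg
      exact hmem p hp
  calc N.card + Wt.card * X0.card
      = N.card + ((Wt ×ˢ X0).image (fun p : W × G => p.2 - yw p.1)).card := by
        rw [Finset.card_image_of_injOn hinj, Finset.card_product]
    _ = (N ∪ (Wt ×ˢ X0).image (fun p : W × G => p.2 - yw p.1)).card := by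
        rw [Finset.card_union_of_disjoint hdisj]
    _ ≤ _ := Finset.card_le_card hsub

/-- The one-step lemma when the top fibre of `X` is the smaller one. -/
theorem step_le [DecidableEq W] {A X Y : Finset G} {φ : G → W} (hφ : IsFH A φ)
    (hX : X ⊆ A) (hY : Y ⊆ A) (lam : W →ₗ[ℚ] ℚ)
    (hlam : ∀ a ∈ A, ∀ b ∈ A, lam (φ a) = lam (φ b) → φ a = φ b)
    {a z : G} (ha : a ∈ X) (hz : z ∈ Y)
    (hmax : ∀ x ∈ X, lam (φ x) ≤ lam (φ a)) (hmin : ∀ y ∈ Y, lam (φ z) ≤ lam (φ y))
    (hle : (X.filter fun x => φ x = φ a).card ≤ (Y.filter fun y => φ y = φ z).card)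
    (D : ℕ) (hD : D ≤ rk φ X ∨ D ≤ rk φ Y) [FiniteDimensional ℚ W] :
    ∃ X' ⊆ X, ∃ Y' ⊆ Y, X'.card + Y'.card < X.card + Y.card ∧
      4 * (X' - Y').card + (2 + D) * (X.card + Y.card) ≤
        4 * (X - Y).card + (2 + D) * (X'.card + Y'.card) := by
  classical
  set X0 := X.filter fun x => φ x = φ a with hX0
  set Y0 := Y.filter fun y => φ y = φ z with hY0
  set X1 := X.filter fun x => φ x ≠ φ a with hX1
  set Y1 := Y.filter fun y => φ y ≠ φ z with hY1
  have hXc : X0.card + X1.card = X.card := Finset.card_filter_add_card_filter_not _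
  have hYc : Y0.card + Y1.card = Y.card := Finset.card_filter_add_card_filter_not _
  have hX0pos : 0 < X0.card := Finset.card_pos.mpr ⟨a, Finset.mem_filter.mpr ⟨ha, rfl⟩⟩
  -- the sets P, Q
  let P : Finset W := X.image fun x => φ x - φ a
  let Q : Finset W := Y.image fun y => φ z - φ y
  have hPneg : ∀ p ∈ P, p ≠ 0 → lam p < 0 := by
    intro p hp hp0
    obtain ⟨x, hx, rfl⟩ := Finset.mem_image.mp hp
    have h1 := hmax x hx
    have h2 : lam (φ x) ≠ lam (φ a) := fun h => hp0 (by rw [hlam x (hX hx) a (hX ha) h, sub_self])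
    rw [map_sub]
    have := lt_of_le_of_ne h1 h2
    linarith
  have hQneg : ∀ p ∈ Q, p ≠ 0 → lam p < 0 := by
    intro p hp hp0
    obtain ⟨y, hy, rfl⟩ := Finset.mem_image.mp hp
    have h1 := hmin y hy
    have h2 : lam (φ z) ≠ lam (φ y) := fun h => hp0 (by rw [hlam z (hY hz) y (hY hy) h, sub_self])
    rw [map_sub]
    have := lt_of_le_of_ne h1 h2
    linarith
  have hQnonpos : ∀ p ∈ Q, lam p ≤ 0 := by
    intro p hp
    by_cases h : p = 0
    · rw [h, map_zero]
    · exact (hQneg p hp h).le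
  let At : Finset W := (P ∪ Q).filter fun w => w ≠ 0 ∧ ∀ p ∈ P, ∀ q ∈ Q, p ≠ 0 → q ≠ 0 → w ≠ p + q
  have hspan : ∀ w ∈ P ∪ Q, w ∈ Submodule.span ℚ (At : Set W) := by
    by_contra hcon
    push Not at hcon
    let Bad := (P ∪ Q).filter fun w => w ∉ Submodule.span ℚ (At : Set W)
    have hBad : Bad.Nonempty := by
      obtain ⟨w, hw, hw'⟩ := hcon
      exact ⟨w, Finset.mem_filter.mpr ⟨hw, hw'⟩⟩
    obtain ⟨w, hw, hwmax⟩ := Finset.exists_max_image Bad lam hBad
    obtain ⟨hwPQ, hwns⟩ := Finset.mem_filter.mp hw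
    have hw0 : w ≠ 0 := fun h => hwns (by rw [h]; exact Submodule.zero_mem _)
    have hwnat : w ∉ At := fun h => hwns (Submodule.subset_span (Finset.mem_coe.mpr h))
    have : ¬ (w ≠ 0 ∧ ∀ p ∈ P, ∀ q ∈ Q, p ≠ 0 → q ≠ 0 → w ≠ p + q) := fun h =>
      hwnat (Finset.mem_filter.mpr ⟨hwPQ, h⟩)
    have h2 : ¬ ∀ p ∈ P, ∀ q ∈ Q, p ≠ 0 → q ≠ 0 → w ≠ p + q := fun h => this ⟨hw0, h⟩
    push Not at h2
    obtain ⟨p, hp, q, hq, hp0, hq0, hwpq⟩ := h2
    have hpl := hPneg p hp hp0
    have hql := hQneg q hq hq0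
    have hwl : lam w = lam p + lam q := by rw [hwpq, map_add]
    have hpin : p ∈ Submodule.span ℚ (At : Set W) := by
      by_contra h
      have := hwmax p (Finset.mem_filter.mpr ⟨Finset.mem_union_left _ hp, h⟩)
      linarith
    have hqin : q ∈ Submodule.span ℚ (At : Set W) := by
      by_contra h
      have := hwmax q (Finset.mem_filter.mpr ⟨Finset.mem_union_right _ hq, h⟩)
      linarith
    exact hwns (by rw [hwpq]; exact Submodule.add_mem _ hpin hqin)
  have hAtD : D ≤ At.card := by
    rcases hD with hD | hD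
    · refine hD.trans (le_trans (Submodule.finrank_mono ?_) (finrank_span_finset_le_card At))
      rw [Submodule.span_le]
      rintro w ⟨x, hx, y, hy, rfl⟩
      have : φ x - φ y = (φ x - φ a) - (φ y - φ a) := by abel
      rw [this]
      exact Submodule.sub_mem _
        (hspan _ (Finset.mem_union_left _ (Finset.mem_image_of_mem (fun x => φ x - φ a) hx)))
        (hspan _ (Finset.mem_union_left _ (Finset.mem_image_of_mem (fun x => φ x - φ a) hy)))
    · refine hD.trans (le_trans (Submodule.finrank_mono ?_) (finrank_span_finset_le_card At))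
      rw [Submodule.span_le]
      rintro w ⟨x, hx, y, hy, rfl⟩
      have : φ x - φ y = (φ z - φ y) - (φ z - φ x) := by abel
      rw [this]
      exact Submodule.sub_mem _
        (hspan _ (Finset.mem_union_right _ (Finset.mem_image_of_mem (fun y => φ z - φ y) hy)))
        (hspan _ (Finset.mem_union_right _ (Finset.mem_image_of_mem (fun y => φ z - φ y) hx)))
  let AP := At.filter fun w => w ∈ P
  let AQ := At.filter fun w => w ∉ P
  have hAPQ : AP.card + AQ.card = At.card := Finset.card_filter_add_card_filter_not _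
  have h0P : (0 : W) ∉ AP := fun h => (Finset.mem_filter.mp (Finset.mem_filter.mp h).1).2.1 rfl
  have h0Q : (0 : W) ∉ AQ := fun h => (Finset.mem_filter.mp (Finset.mem_filter.mp h).1).2.1 rfl
  by_cases hcase : D ≤ 2 * AP.card
  · -- remove both
    have hrb := remove_both hφ hX hY ha hz (insert 0 AP)
      (by
        intro w hw
        rcases Finset.mem_insert.mp hw with rfl | hw
        · exact ⟨a, ha, by rw [zero_add]⟩
        · have h1 := (Finset.mem_filter.mp hw).2
          obtain ⟨x, hx, hxe⟩ := Finset.mem_image.mp h1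
          exact ⟨x, hx, by rw [← hxe]; abel⟩)
      (by
        intro w hw x hx y hy hxa hyz
        have hp0 : φ x - φ a ≠ 0 := sub_ne_zero.mpr hxa
        have hq0 : φ z - φ y ≠ 0 := sub_ne_zero.mpr (Ne.symm hyz)
        have hpP : φ x - φ a ∈ P := Finset.mem_image_of_mem (fun x => φ x - φ a) hx
        have hqQ : φ z - φ y ∈ Q := Finset.mem_image_of_mem (fun y => φ z - φ y) hy
        rcases Finset.mem_insert.mp hw with rfl | hw
        · intro h
          have h1 := hPneg _ hpP hp0
          have h2 := hQneg _ hqQ hq0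
          have h3 : lam 0 = lam (φ x - φ a) + lam (φ z - φ y) := by rw [← map_add, ← h]
          rw [map_zero] at h3
          linarith
        · exact (Finset.mem_filter.mp (Finset.mem_filter.mp hw).1).2.2 _ hpP _ hqQ hp0 hq0)
    refine ⟨X1, Finset.filter_subset _ _, Y1, Finset.filter_subset _ _, ?_, ?_⟩
    · omega
    · rw [Finset.card_insert_of_notMem h0P] at hrb
      rw [← hXc, ← hYc]
      have e1 : (2 + D) * (X0.card + Y0.card) ≤ 4 * ((AP.card + 1) * Y0.card) := by
        calc (2 + D) * (X0.card + Y0.card) ≤ (2 + 2 * AP.card) * (Y0.card + Y0.card) :=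
              Nat.mul_le_mul (by omega) (by omega)
          _ = 4 * ((AP.card + 1) * Y0.card) := by ring
      nlinarith
  · -- remove the top of `X` only
    have hcase2 : D ≤ 2 * AQ.card := by omega
    have hrb := remove_one (a := a) (z := z) hφ hX hY (insert 0 AQ)
      (by
        intro w hw
        rcases Finset.mem_insert.mp hw with rfl | hw
        · exact ⟨z, hz, by rw [sub_zero]⟩
        · have h1 := Finset.mem_filter.mp hw
          have h2 := Finset.mem_filter.mp h1.1
          have h3 : w ∈ Q := by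
            rcases Finset.mem_union.mp h2.1 with h | h
            · exact absurd h h1.2
            · exact h
          obtain ⟨y, hy, hye⟩ := Finset.mem_image.mp h3
          exact ⟨y, hy, by rw [← hye]; abel⟩)
      (by
        intro w hw x hx y hy hxa
        have hp0 : φ x - φ a ≠ 0 := sub_ne_zero.mpr hxa
        have hpP : φ x - φ a ∈ P := Finset.mem_image_of_mem (fun x => φ x - φ a) hx
        have hqQ : φ z - φ y ∈ Q := Finset.mem_image_of_mem (fun y => φ z - φ y) hy
        rcases Finset.mem_insert.mp hw with rfl | hw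
        · intro h
          have h1 := hPneg _ hpP hp0
          have h2 := hQnonpos _ hqQ
          have h3 : lam 0 = lam (φ x - φ a) + lam (φ z - φ y) := by rw [← map_add, ← h]
          rw [map_zero] at h3
          linarith
        · have h1 := Finset.mem_filter.mp hw
          by_cases hq0 : φ z - φ y = 0
          · intro h
            rw [hq0, add_zero] at h
            exact h1.2 (h ▸ hpP)
          · exact (Finset.mem_filter.mp h1.1).2.2 _ hpP _ hqQ hp0 hq0)
    refine ⟨X1, Finset.filter_subset _ _, Y, Finset.Subset.refl _, ?_, ?_⟩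
    · omega
    · rw [Finset.card_insert_of_notMem h0Q] at hrb
      rw [← hXc]
      have e1 : (2 + D) * X0.card ≤ 4 * ((AQ.card + 1) * X0.card) := by
        calc (2 + D) * X0.card ≤ (4 * (AQ.card + 1)) * X0.card :=
              Nat.mul_le_mul (by omega) le_rfl
          _ = 4 * ((AQ.card + 1) * X0.card) := by ring
      nlinarith

/-- The one-step lemma. -/
theorem step [DecidableEq W] {A X Y : Finset G} {φ : G → W} (hφ : IsFH A φ)
    (hX : X ⊆ A) (hY : Y ⊆ A) (hXne : X.Nonempty) (hYne : Y.Nonempty)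
    (lam : W →ₗ[ℚ] ℚ)
    (hlam : ∀ a ∈ A, ∀ b ∈ A, lam (φ a) = lam (φ b) → φ a = φ b)
    (D : ℕ) (hD : D ≤ rk φ X ∨ D ≤ rk φ Y) [FiniteDimensional ℚ W] :
    ∃ X' ⊆ X, ∃ Y' ⊆ Y, X'.card + Y'.card < X.card + Y.card ∧
      4 * (X' - Y').card + (2 + D) * (X.card + Y.card) ≤
        4 * (X - Y).card + (2 + D) * (X'.card + Y'.card) := by
  obtain ⟨a, ha, hmax⟩ := Finset.exists_max_image X (fun x => lam (φ x)) hXne
  obtain ⟨z, hz, hmin⟩ := Finset.exists_min_image Y (fun x => lam (φ x)) hYne
  rcases le_total (X.filter fun x => φ x = φ a).card (Y.filter fun y => φ y = φ z).card with h | h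
  · exact step_le hφ hX hY lam hlam ha hz hmax hmin h D hD
  · obtain ⟨Y', hY', X', hX', h1, h2⟩ := step_le hφ hY hX (-lam)
      (by
        intro a ha b hb hab
        apply hlam a ha b hb
        simpa using hab)
      hz ha (by intro x hx; simpa using hmin x hx) (by intro x hx; simpa using hmax x hx) h D hD.symm
    refine ⟨X', hX', Y', hY', by omega, ?_⟩
    have e1 : (Y' - X').card = (X' - Y').card := by
      rw [← Finset.card_neg (Y' - X'), neg_sub]
    have e2 : (Y - X).card = (X - Y).card := by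
      rw [← Finset.card_neg (Y - X), neg_sub]
    rw [e1, e2, add_comm Y.card X.card, add_comm Y'.card X'.card] at h2
    exact h2

/-- The induction. -/
theorem descent [DecidableEq W] {A : Finset G} {φ : G → W} (hφ : IsFH A φ)
    (lam : W →ₗ[ℚ] ℚ)
    (hlam : ∀ a ∈ A, ∀ b ∈ A, lam (φ a) = lam (φ b) → φ a = φ b)
    [FiniteDimensional ℚ W] (D k : ℕ)
    (hD : ∀ X ⊆ A, k ≤ 2 * X.card → D ≤ rk φ X) :
    ∀ (n : ℕ) (X Y : Finset G), X.card + Y.card = n → X ⊆ A → Y ⊆ A → ∀ h : ℕ,
      h ≤ X.card → h ≤ Y.card → h + k ≤ X.card + Y.card → (2 + D) * h ≤ 4 * (X - Y).card := by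
  intro n
  induction n using Nat.strong_induction_on with
  | _ n ih =>
    intro X Y hn hX hY h hhX hhY hhk
    rcases Nat.eq_zero_or_pos h with rfl | hpos
    · simp
    have hXne : X.Nonempty := Finset.card_pos.mp (lt_of_lt_of_le hpos hhX)
    have hYne : Y.Nonempty := Finset.card_pos.mp (lt_of_lt_of_le hpos hhY)
    have hDD : D ≤ rk φ X ∨ D ≤ rk φ Y := by
      rcases le_total X.card Y.card with hc | hc
      · right; exact hD Y hY (by omega)
      · left; exact hD X hX (by omega)
    obtain ⟨X', hX', Y', hY', hlt, hstep⟩ := step hφ hX hY hXne hYne lam hlam D hDD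
    have cX := Finset.card_le_card hX'
    have cY := Finset.card_le_card hY'
    set μ := (X.card + Y.card) - (X'.card + Y'.card) with hμ
    have hμ' : X.card + Y.card = X'.card + Y'.card + μ := by omega
    have hstep' : 4 * (X' - Y').card + (2 + D) * μ ≤ 4 * (X - Y).card := by
      rw [hμ'] at hstep
      nlinarith
    by_cases hc : h ≤ μ
    · calc (2 + D) * h ≤ (2 + D) * μ := Nat.mul_le_mul_left _ hc
        _ ≤ _ := by omega
    · have := ih (X'.card + Y'.card) (by omega) X' Y' rfl (hX'.trans hX) (hY'.trans hY) (h - μ)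
        (by omega) (by omega) (by omega)
      calc (2 + D) * h = (2 + D) * (h - μ) + (2 + D) * μ := by
            rw [← Nat.mul_add]; congr 1; omega
        _ ≤ 4 * (X' - Y').card + (2 + D) * μ := Nat.add_le_add_right this _
        _ ≤ _ := hstep'

/-- A linear functional which is injective on the values of `φ` on `A`. -/
theorem exists_generic (A : Finset G) (φ : G → W) :
    ∃ lam : W →ₗ[ℚ] ℚ, ∀ a ∈ A, ∀ b ∈ A, lam (φ a) = lam (φ b) → φ a = φ b := by
  classical
  let T : Finset W := ((A ×ˢ A).image fun p => φ p.1 - φ p.2).filter fun w => w ≠ 0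
  obtain ⟨f, hf⟩ := Module.exists_dual_forall_apply_ne_zero (K := ℚ) (fun w : T => (w : W))
    (fun w => (Finset.mem_filter.mp w.2).2)
  refine ⟨f, fun a ha b hb hab => ?_⟩
  by_contra hne
  have hmem : φ a - φ b ∈ T := Finset.mem_filter.mpr
    ⟨Finset.mem_image.mpr ⟨(a, b), Finset.mem_product.mpr ⟨ha, hb⟩, rfl⟩, sub_ne_zero.mpr hne⟩
  apply hf ⟨_, hmem⟩
  simp only
  rw [map_sub, hab, sub_self]

/-- **Freiman's lemma with fibres.** -/
theorem freiman_fibre [FiniteDimensional ℚ W] {A : Finset G} {φ : G → W} (hφ : IsFH A φ) :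
    (rk φ A + 2) * A.card ≤ 6 * (A - A).card := by
  classical
  rcases A.eq_empty_or_nonempty with rfl | hA
  · simp
  obtain ⟨lam, hlam⟩ := exists_generic A φ
  obtain ⟨R, hR, hRmin⟩ := Finset.exists_min_image
    (A.powerset.filter fun X => A.card ≤ 2 * X.card) (rk φ)
    ⟨A, Finset.mem_filter.mpr ⟨Finset.mem_powerset_self _, by omega⟩⟩
  obtain ⟨hRA, hRc⟩ := Finset.mem_filter.mp hR
  have hRA' := Finset.mem_powerset.mp hRA
  have hRne : R.Nonempty := by
    apply Finset.card_pos.mp
    have := Finset.card_pos.mpr hA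
    omega
  have h1 := claim1 hφ hRA' hRne
  have h2 := descent hφ lam hlam (rk φ R) A.card
    (fun X hX hXc => hRmin X (Finset.mem_filter.mpr ⟨Finset.mem_powerset.mpr hX, hXc⟩))
    _ A A rfl (Finset.Subset.refl _) (Finset.Subset.refl _) A.card le_rfl le_rfl le_rfl
  rcases le_total (rk φ A) (rk φ R) with hle | hle
  · calc (rk φ A + 2) * A.card ≤ (2 + rk φ R) * A.card := Nat.mul_le_mul_right _ (by omega)
      _ ≤ 4 * (A - A).card := h2
      _ ≤ _ := by omega
  · obtain ⟨e, he⟩ := Nat.exists_eq_add_of_le hle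
    rw [he] at h1 ⊢
    have h3 : e * R.card ≤ (A - A).card := by nlinarith
    have h4 : e * A.card ≤ 2 * (A - A).card := by nlinarith
    nlinarith

end RamCay384
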