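import Mathlib
import Pool.Agent.RamCay384.LemmaF

/-!
Spaces of rational valued functions respecting short additive relations.
-/

open scoped Pointwise
open Finset

namespace RamCay384

variable {G : Type*} [AddCommGroup G]

/-- Functions on `A` respecting the relations `a - b = c - d`. -/
def F2 (A : Finset G) : Submodule ℚ (A → ℚ) where
  carrier := {f | ∀ a b c d : A, (a : G) - b = c - d → f a - f b = f c - f d}
  add_mem' := by
    intro f g hf hg a b c d h
    have h1 := hf a b c d h
    have h2 := hg a b c d h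
    simp only [Pi.add_apply]
    linarith
  zero_mem' := by
    intro a b c d _
    simp
  smul_mem' := by
    intro r f hf a b c d h
    have h1 := hf a b c d h
    simp only [Pi.smul_apply, smul_eq_mul]
    rw [← mul_sub, ← mul_sub, h1]

/-- Functions on the index set respecting the relations with six terms on each side. -/
def F6 {ι : Type*} (b : ι → G) : Submodule ℚ (ι → ℚ) where
  carrier := {f | ∀ s t : Fin 6 → ι, ∑ i, b (s i) = ∑ i, b (t i) → ∑ i, f (s i) = ∑ i, f (t i)}
  add_mem' := by
    intro f g hf hg s t h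
    have h1 := hf s t h
    have h2 := hg s t h
    simp only [Pi.add_apply, Finset.sum_add_distrib]
    rw [h1, h2]
  zero_mem' := by
    intro s t _
    simp
  smul_mem' := by
    intro r f hf s t h
    have h1 := hf s t h
    simp only [Pi.smul_apply, smul_eq_mul, ← Finset.mul_sum]
    rw [h1]

/-- The evaluation map into the dual space. -/
noncomputable def evφ [DecidableEq G] (A : Finset G) (a : G) : Module.Dual ℚ (F2 A) :=
  if h : a ∈ A then (LinearMap.proj (⟨a, h⟩ : A)).comp (F2 A).subtype else 0

theorem evφ_apply [DecidableEq G] (A : Finset G) {a : G} (h : a ∈ A) (f : F2 A) :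
    evφ A a f = f.1 ⟨a, h⟩ := by
  unfold evφ
  rw [dif_pos h]
  rfl

theorem evφ_isFH [DecidableEq G] (A : Finset G) : IsFH A (evφ A) := by
  intro a ha b hb c hc d hd h
  ext f
  rw [LinearMap.sub_apply, LinearMap.sub_apply, evφ_apply A ha, evφ_apply A hb, evφ_apply A hc,
    evφ_apply A hd]
  exact f.2 ⟨a, ha⟩ ⟨b, hb⟩ ⟨c, hc⟩ ⟨d, hd⟩ h

theorem finrank_F2_le [DecidableEq G] {A : Finset G} (hA : A.Nonempty) :
    Module.finrank ℚ (F2 A) ≤ rk (evφ A) A + 1 := by
  obtain ⟨a₀, ha₀⟩ := hA
  let D : Submodule ℚ (Module.Dual ℚ (F2 A)) := Submodule.span ℚ (dset (evφ A) A)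
  let Ψ : F2 A →ₗ[ℚ] (Module.Dual ℚ D) × ℚ :=
    LinearMap.prod ((D.subtype.dualMap).comp (Module.Dual.eval ℚ (F2 A)))
      ((LinearMap.proj (⟨a₀, ha₀⟩ : A)).comp (F2 A).subtype)
  have hinj : Function.Injective Ψ := by
    rw [← LinearMap.ker_eq_bot, LinearMap.ker_eq_bot']
    intro f hf
    have h1 : (D.subtype.dualMap).comp (Module.Dual.eval ℚ (F2 A)) f = 0 := congrArg Prod.fst hf
    have h2 : f.1 ⟨a₀, ha₀⟩ = 0 := congrArg Prod.snd hf
    apply Subtype.ext
    funext a
    have hmem : evφ A a.1 - evφ A a₀ ∈ D := Submodule.subset_span ⟨a.1, a.2, a₀, ha₀, rfl⟩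
    have h3 : (evφ A a.1 - evφ A a₀) f = 0 := by
      have := congrArg (fun g : Module.Dual ℚ D => g ⟨_, hmem⟩) h1
      simpa using this
    rw [LinearMap.sub_apply, evφ_apply A a.2, evφ_apply A ha₀, h2, sub_zero] at h3
    exact h3
  have := LinearMap.finrank_le_finrank_of_injective hinj
  rw [Module.finrank_prod, Subspace.dual_finrank_eq, Module.finrank_self] at this
  exact this

/-- Large rank forces many differences. -/
theorem rank_le_diff [DecidableEq G] {A : Finset G} (hA : A.Nonempty) :
    (Module.finrank ℚ (F2 A) + 1) * A.card ≤ 6 * (A - A).card := by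
  refine le_trans (Nat.mul_le_mul_right _ ?_) (freiman_fibre (evφ_isFH A))
  have := finrank_F2_le hA
  omega

/-- Extension of functions from a small set controlling `A`. -/
theorem finrank_F6_le {ι : Type*} [Fintype ι] (b : ι → G) (A : Finset G)
    (hbA : ∀ i, b i ∈ A) (hA : ∀ a ∈ A, ∃ i j l, a = b i + b j - b l) :
    Module.finrank ℚ (F6 b) ≤ Module.finrank ℚ (F2 A) := by
  classical
  have hA' : ∀ a : A, ∃ i j l, (a : G) = b i + b j - b l := fun a => hA a.1 a.2
  choose ci cj cl hc using hA'
  let E0 : (ι → ℚ) →ₗ[ℚ] (A → ℚ) :=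
    { toFun := fun f a => f (ci a) + f (cj a) - f (cl a)
      map_add' := by intro f g; funext a; simp only [Pi.add_apply]; ring
      map_smul' := by
        intro r f; funext a
        simp only [Pi.smul_apply, smul_eq_mul, RingHom.id_apply]; ring }
  have hE : ∀ f ∈ F6 b, E0 f ∈ F2 A := by
    intro f hf x y z w h
    have h' : (x : G) + w = z + y := by
      have := sub_eq_sub_iff_add_eq_add.mp h
      exact this
    have key := hf ![ci x, cj x, ci w, cj w, cl y, cl z] ![ci y, cj y, ci z, cj z, cl x, cl w]
      (by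
        simp only [Fin.sum_univ_six, Matrix.cons_val]
        have hx := hc x
        have hy := hc y
        have hz := hc z
        have hw := hc w
        rw [hx, hy, hz, hw] at h'
        have e1 : b (ci x) + b (cj x) + b (ci w) + b (cj w) + b (cl y) + b (cl z) =
            (b (ci x) + b (cj x) - b (cl x) + (b (ci w) + b (cj w) - b (cl w))) +
              (b (cl x) + b (cl w) + b (cl y) + b (cl z)) := by abel
        rw [e1, h']
        abel)
    simp only [Fin.sum_univ_six, Matrix.cons_val] at key
    change f (ci x) + f (cj x) - f (cl x) - (f (ci y) + f (cj y) - f (cl y)) =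
      f (ci z) + f (cj z) - f (cl z) - (f (ci w) + f (cj w) - f (cl w))
    linarith
  let E : F6 b →ₗ[ℚ] F2 A := E0.restrict hE
  have hinj : Function.Injective E := by
    rw [← LinearMap.ker_eq_bot, LinearMap.ker_eq_bot']
    intro f hf
    apply Subtype.ext
    funext i
    have h1 : E0 f.1 ⟨b i, hbA i⟩ = 0 := by
      have := congrArg (fun g : F2 A => g.1 ⟨b i, hbA i⟩) hf
      simpa using! this
    have h2 := hc ⟨b i, hbA i⟩
    set x : A := ⟨b i, hbA i⟩ with hx
    have key := f.2 ![i, cl x, i, i, i, i] ![ci x, cj x, i, i, i, i]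
      (by
        simp only [Fin.sum_univ_six, Matrix.cons_val]
        have h3 : b i + b (cl x) = b (ci x) + b (cj x) := by
          have : b i = b (ci x) + b (cj x) - b (cl x) := h2
          rw [this]; abel
        rw [h3])
    simp only [Fin.sum_univ_six, Matrix.cons_val] at key
    change f.1 (ci x) + f.1 (cj x) - f.1 (cl x) = 0 at h1
    change f.1 i = 0
    linarith
  exact LinearMap.finrank_le_finrank_of_injective hinj

end RamCay384
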