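import Mathlib
import Pool.Agent.RamCay384.Extend

/-!
Counting tuples with many short relations.
-/

open scoped Pointwise Kronecker
open Finset

namespace RamCay384

/-! ### Determinants and indices -/

/-- The determinant is at most the product of the `ℓ¹`-norms of the rows. -/
theorem abs_det_le_prod {r : ℕ} (M : Matrix (Fin r) (Fin r) ℤ) :
    |M.det| ≤ ∏ i, ∑ j, |M i j| := by
  classical
  rw [← Matrix.det_transpose, Matrix.det_apply]
  calc |∑ σ : Equiv.Perm (Fin r), Equiv.Perm.sign σ • ∏ i, M.transpose (σ i) i|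
      ≤ ∑ σ : Equiv.Perm (Fin r), |Equiv.Perm.sign σ • ∏ i, M.transpose (σ i) i| :=
        Finset.abs_sum_le_sum_abs _ _
    _ = ∑ σ : Equiv.Perm (Fin r), ∏ i, |M i (σ i)| := by
        apply Finset.sum_congr rfl
        intro σ _
        rw [← Finset.abs_prod]
        rcases Int.units_eq_one_or (Equiv.Perm.sign σ) with h | h
        · rw [h, one_smul]; rfl
        · rw [h]
          have : ((-1 : ℤˣ) • ∏ i, M.transpose (σ i) i) = - ∏ i, M.transpose (σ i) i := by
            rw [Units.smul_def]; simp
          rw [this, abs_neg]; rfl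
    _ = ∑ g ∈ (Finset.univ : Finset (Equiv.Perm (Fin r))).map
          ⟨fun σ : Equiv.Perm (Fin r) => (σ : Fin r → Fin r), DFunLike.coe_injective⟩,
          ∏ i, |M i (g i)| := by
        rw [Finset.sum_map]; rfl
    _ ≤ ∑ g : Fin r → Fin r, ∏ i, |M i (g i)| := by
        apply Finset.sum_le_sum_of_subset_of_nonneg (Finset.subset_univ _)
        intro g _ _
        exact Finset.prod_nonneg fun i _ => abs_nonneg _
    _ = ∏ i, ∑ j, |M i j| := by
        rw [Finset.prod_univ_sum]
        simp

/-- The index of the image of a nonsingular integer matrix. -/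
theorem index_range_mulVec {ι : Type*} [Fintype ι] [DecidableEq ι] (M : Matrix ι ι ℤ)
    (hM : M.det ≠ 0) :
    (LinearMap.range M.mulVecLin).toAddSubgroup.index = M.det.natAbs := by
  have hinj : Function.Injective M.mulVecLin := by
    rw [← LinearMap.ker_eq_bot, LinearMap.ker_eq_bot']
    intro x hx
    exact Matrix.eq_zero_of_mulVec_eq_zero hM hx
  have h := Submodule.natAbs_det_equiv (LinearMap.range M.mulVecLin)
    (LinearEquiv.ofInjective M.mulVecLin hinj)
  have h2 : (LinearMap.range M.mulVecLin).subtype ∘ₗ AddMonoidHom.toIntLinearMap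
      ((LinearEquiv.ofInjective M.mulVecLin hinj : (ι → ℤ) ≃ₗ[ℤ] LinearMap.range M.mulVecLin) :
        (ι → ℤ) →+ LinearMap.range M.mulVecLin) = M.mulVecLin := by
    ext x
    rfl
  rw [h2] at h
  rw [← Matrix.toLin'_apply', LinearMap.det_toLin'] at h
  rw [h]
  rfl

/-- **Solution count.**  `G` is generated by `n` elements, `M` is an integer matrix with a
nonsingular square submatrix. -/
theorem card_solutions {G : Type*} [AddCommGroup G] [Finite G] {n r m : ℕ}
    (π : (Fin n → ℤ) →+ G) (hπ : Function.Surjective π)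
    (M : Matrix (Fin r) (Fin m) ℤ) (e : Fin r → Fin m) (hdet : (M.submatrix id e).det ≠ 0) :
    Nat.card {b : Fin m → G // ∀ i, ∑ j, M i j • b j = 0} * Nat.card G ^ r ≤
      Nat.card G ^ m * (M.submatrix id e).det.natAbs ^ n := by
  classical
  let μ : (Fin m → G) →+ (Fin r → G) :=
    { toFun := fun b i => ∑ j, M i j • b j
      map_zero' := by funext i; simp
      map_add' := by
        intro x y; funext i
        simp only [Pi.add_apply, smul_add, Finset.sum_add_distrib] }
  have hμ : ∀ b i, μ b i = ∑ j, M i j • b j := fun _ _ => rfl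
  have hker : Nat.card {b : Fin m → G // ∀ i, ∑ j, M i j • b j = 0} = Nat.card μ.ker := by
    apply Nat.card_congr
    apply Equiv.subtypeEquivRight
    intro b
    rw [AddMonoidHom.mem_ker]
    constructor
    · intro h; funext i; rw [hμ]; exact h i
    · intro h i; rw [← hμ, h]; rfl
  have h1 : Nat.card μ.ker * Nat.card μ.range = Nat.card G ^ m := by
    rw [← AddSubgroup.index_ker, AddSubgroup.card_mul_index, Nat.card_pi]
    simp
  have h2 : Nat.card μ.range * μ.range.index = Nat.card G ^ r := by
    rw [AddSubgroup.card_mul_index, Nat.card_pi]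
    simp
  -- the index of the range
  let M1 : Matrix (Fin r) (Fin r) ℤ := M.submatrix id e
  let T : Matrix (Fin r × Fin n) (Fin r × Fin n) ℤ := M1 ⊗ₖ (1 : Matrix (Fin n) (Fin n) ℤ)
  have hTdet : T.det = M1.det ^ n := by
    rw [Matrix.det_kronecker]; simp
  have hTne : T.det ≠ 0 := by rw [hTdet]; exact pow_ne_zero _ hdet
  let f : (Fin r × Fin n → ℤ) →+ (Fin r → G) :=
    { toFun := fun x i => π (fun l => x (i, l))
      map_zero' := by
        funext i
        exact map_zero π
      map_add' := by
        intro x y; funext i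
        rw [Pi.add_apply, ← map_add]; rfl }
  have hf : Function.Surjective f := by
    intro g
    choose y hy using fun i => hπ (g i)
    exact ⟨fun p => y p.1 p.2, by funext i; exact hy i⟩
  have hle : ((LinearMap.range T.mulVecLin).toAddSubgroup).map f ≤ μ.range := by
    rintro _ ⟨_, ⟨x, rfl⟩, rfl⟩
    rw [AddMonoidHom.mem_range]
    refine ⟨fun j => ∑ i' : Fin r, if e i' = j then π (fun l => x (i', l)) else 0, ?_⟩
    funext i
    rw [hμ]
    have e1 : ∀ j, M i j • (∑ i' : Fin r, if e i' = j then π (fun l => x (i', l)) else 0) =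
        ∑ i' : Fin r, if e i' = j then M i j • π (fun l => x (i', l)) else 0 := by
      intro j
      rw [Finset.smul_sum]
      apply Finset.sum_congr rfl
      intro i' _
      split_ifs <;> simp
    simp only [e1]
    rw [Finset.sum_comm]
    simp only [Finset.sum_ite_eq, Finset.mem_univ, if_true]
    change _ = π (fun l => T.mulVec x (i, l))
    have e2 : (fun l => T.mulVec x (i, l)) =
        ∑ i' : Fin r, M i (e i') • (fun l => x (i', l)) := by
      funext l
      rw [Finset.sum_apply]
      simp only [Matrix.mulVec, dotProduct, Fintype.sum_prod_type, T, Matrix.kroneckerMap_apply,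
        Pi.smul_apply, smul_eq_mul]
      apply Finset.sum_congr rfl
      intro i' _
      simp [Matrix.one_apply, M1]
    rw [e2, map_sum]
    apply Finset.sum_congr rfl
    intro i' _
    rw [map_zsmul]
  have h3 : μ.range.index ∣ M1.det.natAbs ^ n := by
    have a1 := AddSubgroup.index_dvd_of_le hle
    have a2 := AddSubgroup.index_map_dvd (H := (LinearMap.range T.mulVecLin).toAddSubgroup) hf
    rw [index_range_mulVec T hTne, hTdet, Int.natAbs_pow] at a2
    exact a1.trans a2
  have h4 : μ.range.index ≤ M1.det.natAbs ^ n :=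
    Nat.le_of_dvd (pow_pos (Int.natAbs_pos.mpr hdet) _) h3
  rw [hker]
  calc Nat.card μ.ker * Nat.card G ^ r = Nat.card G ^ m * μ.range.index := by
        rw [← h2, ← h1]; ring
    _ ≤ _ := Nat.mul_le_mul_left _ h4

/-! ### Relation rows -/

/-- Row of a relation `∑ b (s a) = ∑ b (t a)`. -/
def relRow {m : ℕ} (p : (Fin 6 → Fin m) × (Fin 6 → Fin m)) : Fin m → ℤ :=
  fun j => (∑ a, if p.1 a = j then (1 : ℤ) else 0) - ∑ a, if p.2 a = j then (1 : ℤ) else 0

theorem ind_smul {m : ℕ} {A : Type*} [AddCommGroup A] (s : Fin 6 → Fin m) (b : Fin m → A) :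
    ∑ j, (∑ a, if s a = j then (1 : ℤ) else 0) • b j = ∑ a, b (s a) := by
  simp only [Finset.sum_smul, ite_smul, one_smul, zero_smul]
  rw [Finset.sum_comm]
  apply Finset.sum_congr rfl
  intro a _
  simp

theorem relRow_smul {m : ℕ} {A : Type*} [AddCommGroup A]
    (p : (Fin 6 → Fin m) × (Fin 6 → Fin m)) (b : Fin m → A) :
    ∑ j, relRow p j • b j = ∑ a, b (p.1 a) - ∑ a, b (p.2 a) := by
  simp only [relRow, sub_smul]
  rw [Finset.sum_sub_distrib, ind_smul, ind_smul]

theorem ind_norm {m : ℕ} (s : Fin 6 → Fin m) :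
    ∑ j, (∑ a, if s a = j then (1 : ℤ) else 0) = 6 := by
  have := ind_smul s (fun _ => (1 : ℤ))
  simp only [smul_eq_mul, mul_one] at this
  rw [this]
  simp

theorem relRow_norm {m : ℕ} (p : (Fin 6 → Fin m) × (Fin 6 → Fin m)) :
    ∑ j, |relRow p j| ≤ 12 := by
  calc ∑ j, |relRow p j|
      ≤ ∑ j, ((∑ a, if p.1 a = j then (1 : ℤ) else 0) + ∑ a, if p.2 a = j then (1 : ℤ) else 0) := by
        apply Finset.sum_le_sum
        intro j _
        refine (abs_sub _ _).trans ?_
        apply le_of_eq
        rw [abs_of_nonneg, abs_of_nonneg]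
        · exact Finset.sum_nonneg fun a _ => by split_ifs <;> norm_num
        · exact Finset.sum_nonneg fun a _ => by split_ifs <;> norm_num
    _ = 12 := by
        rw [Finset.sum_add_distrib, ind_norm, ind_norm]; norm_num

/-- The relation rows of a tuple, as rational vectors. -/
def rowSet {G : Type*} [AddCommGroup G] {m : ℕ} (b : Fin m → G) : Set (Fin m → ℚ) :=
  {v | ∃ p : (Fin 6 → Fin m) × (Fin 6 → Fin m),
    ∑ a, b (p.1 a) = ∑ a, b (p.2 a) ∧ v = fun j => (relRow p j : ℚ)}

theorem dot_row {m : ℕ} (p : (Fin 6 → Fin m) × (Fin 6 → Fin m)) (f : Fin m → ℚ) :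
    ∑ j, (relRow p j : ℚ) * f j = ∑ a, f (p.1 a) - ∑ a, f (p.2 a) := by
  rw [← relRow_smul p f]
  apply Finset.sum_congr rfl
  intro j _
  rw [zsmul_eq_mul]

/-- Rank of the relation rows. -/
theorem le_finrank_rowSet {G : Type*} [AddCommGroup G] {m : ℕ} (b : Fin m → G) :
    m ≤ Module.finrank ℚ (F6 b) + Module.finrank ℚ (Submodule.span ℚ (rowSet b)) := by
  obtain ⟨v, hv, hspan, -⟩ := Submodule.exists_fun_fin_finrank_span_eq ℚ (rowSet b)
  let Φ : (Fin m → ℚ) →ₗ[ℚ] (Fin (Module.finrank ℚ (Submodule.span ℚ (rowSet b))) → ℚ) :=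
    { toFun := fun f i => ∑ j, v i j * f j
      map_add' := by
        intro f g; funext i
        simp only [Pi.add_apply, mul_add, Finset.sum_add_distrib]
      map_smul' := by
        intro c f; funext i
        simp only [Pi.smul_apply, smul_eq_mul, RingHom.id_apply, Finset.mul_sum]
        apply Finset.sum_congr rfl
        intro j _; ring }
  have hker : LinearMap.ker Φ ≤ F6 b := by
    intro f hf s t hst
    -- every vector in the span is orthogonal to `f`
    have h1 : ∀ w ∈ Submodule.span ℚ (Set.range v), ∑ j, w j * f j = 0 := by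
      intro w hw
      induction hw using Submodule.span_induction with
      | mem x hx =>
        obtain ⟨i, rfl⟩ := hx
        have : Φ f = 0 := hf
        exact congrFun this i
      | zero => simp
      | add x y _ _ hx hy =>
        simp only [Pi.add_apply, add_mul, Finset.sum_add_distrib, hx, hy, add_zero]
      | smul c x _ hx =>
        simp only [Pi.smul_apply, smul_eq_mul, mul_assoc, ← Finset.mul_sum, hx, mul_zero]
    rw [hspan] at h1
    have h2 := h1 (fun j => (relRow (s, t) j : ℚ)) (Submodule.subset_span ⟨(s, t), hst, rfl⟩)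
    rw [dot_row] at h2
    exact sub_eq_zero.mp h2
  have h3 := LinearMap.finrank_range_add_finrank_ker Φ
  have h4 : Module.finrank ℚ (LinearMap.range Φ) ≤
      Module.finrank ℚ (Submodule.span ℚ (rowSet b)) := by
    refine (Submodule.finrank_le _).trans ?_
    rw [Module.finrank_fin_fun]
  have h5 : Module.finrank ℚ (LinearMap.ker Φ) ≤ Module.finrank ℚ (F6 b) :=
    Submodule.finrank_mono hker
  rw [Module.finrank_fin_fun] at h3
  omega

/-- Choose independent relation rows and a nonsingular minor. -/
theorem exists_rows {G : Type*} [AddCommGroup G] {m r : ℕ} (b : Fin m → G)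
    (hr : r + Module.finrank ℚ (F6 b) ≤ m) :
    ∃ (p : Fin r → (Fin 6 → Fin m) × (Fin 6 → Fin m)) (e : Fin r → Fin m),
      (∀ i, ∑ a, b ((p i).1 a) = ∑ a, b ((p i).2 a)) ∧
      ((Matrix.of fun i j => relRow (p i) j).submatrix id e).det ≠ 0 := by
  obtain ⟨v, hv, hspan, hli⟩ := Submodule.exists_fun_fin_finrank_span_eq ℚ (rowSet b)
  have hq : r ≤ Module.finrank ℚ (Submodule.span ℚ (rowSet b)) := by
    have := le_finrank_rowSet b
    omega
  choose p hp1 hp2 using hv
  let ι : Fin r → Fin (Module.finrank ℚ (Submodule.span ℚ (rowSet b))) := Fin.castLE hq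
  have hιinj : Function.Injective ι := Fin.castLE_injective hq
  have hli2 : LinearIndependent ℚ (v ∘ ι) := hli.comp ι hιinj
  -- matrix over `ℚ`
  let M : Matrix (Fin r) (Fin m) ℚ := Matrix.of (v ∘ ι)
  have hrank : M.rank = r := by
    have := LinearIndependent.rank_matrix (M := M) hli2
    rw [this, Fintype.card_fin]
  have hcols : Module.finrank ℚ (Submodule.span ℚ (Set.range M.col)) = r := by
    rw [← Matrix.rank_eq_finrank_span_cols, hrank]
  obtain ⟨w, hw, hwspan, hwli⟩ := Submodule.exists_fun_fin_finrank_span_eq ℚ (Set.range M.col)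
  choose e0 he0 using hw
  let e : Fin r → Fin m := fun i => e0 (Fin.cast hcols.symm i)
  refine ⟨fun i => p (ι i), e, fun i => hp1 (ι i), ?_⟩
  have hdetQ : (M.submatrix id e).det ≠ 0 := by
    have hli3 : LinearIndependent ℚ (M.submatrix id e).col := by
      have : (M.submatrix id e).col = w ∘ Fin.cast hcols.symm := by
        funext i
        change (fun k => M k (e i)) = w (Fin.cast hcols.symm i)
        rw [← he0]
        rfl
      rw [this]
      exact hwli.comp _ (Fin.cast_injective _)
    rw [Matrix.linearIndependent_cols_iff_isUnit, Matrix.isUnit_iff_isUnit_det] at hli3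
    exact hli3.ne_zero
  intro h0
  apply hdetQ
  have hmap : M.submatrix id e =
      ((Matrix.of fun i j => relRow (p (ι i)) j).submatrix id e).map (Int.cast : ℤ → ℚ) := by
    ext i j
    change (v (ι i)) (e j) = ((relRow (p (ι i)) (e j) : ℤ) : ℚ)
    rw [hp2]
  rw [hmap]
  have := Int.cast_det (R := ℚ) ((Matrix.of fun i j => relRow (p (ι i)) j).submatrix id e)
  rw [h0] at this
  simpa using this.symm

/-- A nonsingular minor uses distinct columns. -/
theorem minor_injective {r m : ℕ} (M : Matrix (Fin r) (Fin m) ℤ) (e : Fin r → Fin m)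
    (h : (M.submatrix id e).det ≠ 0) : Function.Injective e := by
  intro i j hij
  by_contra hne
  apply h
  apply Matrix.det_zero_of_column_eq hne
  intro k
  simp [hij]

/-- The minor is bounded by `12 ^ r`. -/
theorem minor_le {r m : ℕ} (p : Fin r → (Fin 6 → Fin m) × (Fin 6 → Fin m)) (e : Fin r → Fin m)
    (h : ((Matrix.of fun i j => relRow (p i) j).submatrix id e).det ≠ 0) :
    ((Matrix.of fun i j => relRow (p i) j).submatrix id e).det.natAbs ≤ 12 ^ r := by
  have hinj := minor_injective _ e h
  have h1 := abs_det_le_prod ((Matrix.of fun i j => relRow (p i) j).submatrix id e)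
  have h2 : ∏ i, ∑ j, |((Matrix.of fun i j => relRow (p i) j).submatrix id e) i j| ≤
      ∏ _i : Fin r, (12 : ℤ) := by
    apply Finset.prod_le_prod
    · intro i _
      exact Finset.sum_nonneg fun j _ => abs_nonneg _
    · intro i _
      calc ∑ j, |((Matrix.of fun i j => relRow (p i) j).submatrix id e) i j|
          = ∑ j ∈ Finset.univ.map ⟨e, hinj⟩, |relRow (p i) j| := by
            rw [Finset.sum_map]; rfl
        _ ≤ ∑ j, |relRow (p i) j| :=
            Finset.sum_le_sum_of_subset_of_nonneg (Finset.subset_univ _)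
              fun _ _ _ => abs_nonneg _
        _ ≤ 12 := relRow_norm _
  rw [Finset.prod_const, Finset.card_univ, Fintype.card_fin] at h2
  have h3 := h1.trans h2
  zify
  exact h3

/-- **Counting lemma.** -/
theorem card_small_rank {G : Type*} [AddCommGroup G] [Fintype G] {n : ℕ}
    (π : (Fin n → ℤ) →+ G) (hπ : Function.Surjective π) (m t : ℕ) (hm : 1 ≤ m) :
    Nat.card {b : Fin m → G // Module.finrank ℚ (F6 b) ≤ t} ≤
      m ^ (12 * m) * Nat.card G ^ t * 12 ^ (m * n) := by
  classical
  have hN : 1 ≤ Nat.card G := Nat.card_pos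
  by_cases htm : m ≤ t
  · calc Nat.card {b : Fin m → G // Module.finrank ℚ (F6 b) ≤ t}
        ≤ Nat.card (Fin m → G) := Nat.card_le_card_of_injective _ Subtype.val_injective
      _ = Nat.card G ^ m := by rw [Nat.card_pi]; simp
      _ ≤ Nat.card G ^ t := Nat.pow_le_pow_right hN htm
      _ = 1 * Nat.card G ^ t * 1 := by ring
      _ ≤ _ := by
        apply Nat.mul_le_mul (Nat.mul_le_mul _ le_rfl)
        · exact Nat.one_le_pow _ _ (by norm_num)
        · exact Nat.one_le_pow _ _ (by omega)
  · push Not at htm
    obtain ⟨r, hr⟩ : ∃ r, m = r + t := ⟨m - t, by omega⟩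
    let Pt := Fin r → (Fin 6 → Fin m) × (Fin 6 → Fin m)
    -- good parameter sets
    let good : Pt → Prop := fun p => ∃ e : Fin r → Fin m,
      ((Matrix.of fun i j => relRow (p i) j).submatrix id e).det ≠ 0
    let Sol : Pt → Finset (Fin m → G) := fun p =>
      if good p then Finset.univ.filter fun b => ∀ i, ∑ j, relRow (p i) j • b j = 0 else ∅
    have hSol : ∀ p, (Sol p).card ≤ Nat.card G ^ t * 12 ^ (m * n) := by
      intro p
      by_cases hg : good p
      · obtain ⟨e, he⟩ := hg
        have h1 := card_solutions π hπ (Matrix.of fun i j => relRow (p i) j) e he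
        have h2 := minor_le p e he
        have h3 : (Sol p).card = Nat.card {b : Fin m → G // ∀ i,
            ∑ j, (Matrix.of fun i j => relRow (p i) j) i j • b j = 0} := by
          simp only [Sol]
          rw [if_pos ⟨e, he⟩, Nat.card_eq_fintype_card, Fintype.card_subtype]
          rfl
        rw [h3]
        have h4 : Nat.card {b : Fin m → G // ∀ i,
            ∑ j, (Matrix.of fun i j => relRow (p i) j) i j • b j = 0} * Nat.card G ^ r ≤
            (Nat.card G ^ t * 12 ^ (m * n)) * Nat.card G ^ r := by
          refine h1.trans ?_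
          calc Nat.card G ^ m * ((Matrix.of fun i j => relRow (p i) j).submatrix id e).det.natAbs ^ n
              ≤ Nat.card G ^ m * (12 ^ r) ^ n :=
                Nat.mul_le_mul_left _ (Nat.pow_le_pow_left h2 n)
            _ ≤ Nat.card G ^ m * 12 ^ (m * n) := by
                apply Nat.mul_le_mul_left
                rw [← pow_mul]
                apply Nat.pow_le_pow_right (by norm_num)
                apply Nat.mul_le_mul_right
                omega
            _ = _ := by rw [hr, pow_add]; ring
        exact Nat.le_of_mul_le_mul_right h4 (pow_pos hN _)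
      · simp only [Sol]
        rw [if_neg hg]
        simp
    have hsub : (Finset.univ.filter fun b : Fin m → G => Module.finrank ℚ (F6 b) ≤ t) ⊆
        (Finset.univ : Finset Pt).biUnion Sol := by
      intro b hb
      have hb' := (Finset.mem_filter.mp hb).2
      obtain ⟨p, e, hp, hdet⟩ := exists_rows (r := r) b (by omega)
      rw [Finset.mem_biUnion]
      refine ⟨p, Finset.mem_univ _, ?_⟩
      simp only [Sol]
      rw [if_pos ⟨e, hdet⟩, Finset.mem_filter]
      refine ⟨Finset.mem_univ _, fun i => ?_⟩
      rw [relRow_smul, hp i, sub_self]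
    have hPt : (Finset.univ : Finset Pt).card ≤ m ^ (12 * m) := by
      rw [Finset.card_univ]
      simp only [Pt, Fintype.card_pi, Finset.prod_const, Finset.card_univ, Fintype.card_fin,
        Fintype.card_prod]
      rw [← pow_add, ← pow_mul]
      apply Nat.pow_le_pow_right hm
      omega
    calc Nat.card {b : Fin m → G // Module.finrank ℚ (F6 b) ≤ t}
        = (Finset.univ.filter fun b : Fin m → G => Module.finrank ℚ (F6 b) ≤ t).card := by
          rw [Nat.card_eq_fintype_card, Fintype.card_subtype]
      _ ≤ ((Finset.univ : Finset Pt).biUnion Sol).card := Finset.card_le_card hsub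
      _ ≤ ∑ p : Pt, (Sol p).card := Finset.card_biUnion_le
      _ ≤ ∑ _p : Pt, Nat.card G ^ t * 12 ^ (m * n) := Finset.sum_le_sum fun p _ => hSol p
      _ = (Finset.univ : Finset Pt).card * (Nat.card G ^ t * 12 ^ (m * n)) := by
          rw [Finset.sum_const, smul_eq_mul]
      _ ≤ m ^ (12 * m) * (Nat.card G ^ t * 12 ^ (m * n)) := Nat.mul_le_mul_right _ hPt
      _ = _ := by ring

end RamCay384
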