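import Mathlib
import Pool.Agent.RamCay384.Extend

/-!
A small controlling subset of a finite set `A`.
-/

open scoped Pointwise
open Finset

namespace RamCay384

variable {G : Type*} [AddCommGroup G] [DecidableEq G]

/-- Greedy choice of a small set with many differences. -/
theorem greedy (A : Finset G) (j : ℕ) :
    ∃ S ⊆ A, S.card ≤ j ∧
      (A.card ≤ 2 * (S - S).card ∨ (S.card = j ∧ j * (j - 1) ≤ 4 * (S - S).card)) := by
  induction j with
  | zero => exact ⟨∅, Finset.empty_subset _, by simp, by simp⟩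
  | succ j ih =>
    obtain ⟨S, hSA, hSj, h | ⟨hSc, h⟩⟩ := ih
    · exact ⟨S, hSA, by omega, Or.inl h⟩
    by_cases hk : A.card ≤ 2 * (S - S).card
    · exact ⟨S, hSA, by omega, Or.inl hk⟩
    push Not at hk
    -- choose a new element
    have hex : ∃ a ∈ A, a ∉ S ∧ 2 * (S.filter fun s => a - s ∈ S - S).card ≤ j := by
      rcases Nat.eq_zero_or_pos j with rfl | hj
      · have hS0 : S = ∅ := Finset.card_eq_zero.mp hSc
        have hA : A.Nonempty := Finset.card_pos.mp (by omega)
        obtain ⟨a, ha⟩ := hA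
        exact ⟨a, ha, by simp [hS0], by simp [hS0]⟩
      · by_contra hcon
        push Not at hcon
        have hbig : ∀ a ∈ A, j + 1 ≤ 2 * (S.filter fun s => a - s ∈ S - S).card := by
          intro a ha
          by_cases haS : a ∈ S
          · have : (S.filter fun s => a - s ∈ S - S) = S :=
              Finset.filter_true_of_mem fun s hs => Finset.sub_mem_sub haS hs
            rw [this, hSc]; omega
          · exact hcon a ha haS
        have h1 : A.card * (j + 1) ≤ 2 * ∑ a ∈ A, (S.filter fun s => a - s ∈ S - S).card := by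
          rw [Finset.mul_sum, ← smul_eq_mul, ← Finset.sum_const]
          exact Finset.sum_le_sum hbig
        have h2 : ∑ a ∈ A, (S.filter fun s => a - s ∈ S - S).card =
            ∑ s ∈ S, (A.filter fun a => a - s ∈ S - S).card := by
          simp only [Finset.card_filter]
          exact Finset.sum_comm
        have h3 : ∑ s ∈ S, (A.filter fun a => a - s ∈ S - S).card ≤ j * (S - S).card := by
          rw [← hSc, ← smul_eq_mul, ← Finset.sum_const]
          apply Finset.sum_le_sum
          intro s _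
          apply Finset.card_le_card_of_injOn (fun a => a - s)
          · intro a ha
            exact Finset.mem_coe.mpr (Finset.mem_filter.mp (Finset.mem_coe.mp ha)).2
          · intro a _ a' _ haa
            exact sub_left_injective haa
        have h4 : A.card * (j + 1) ≤ 2 * (j * (S - S).card) := by
          calc _ ≤ _ := h1
            _ ≤ _ := by rw [h2]; exact Nat.mul_le_mul_left _ h3
        nlinarith
    obtain ⟨a, haA, haS, ha2⟩ := hex
    refine ⟨insert a S, Finset.insert_subset haA hSA, ?_, Or.inr ⟨?_, ?_⟩⟩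
    · rw [Finset.card_insert_of_notMem haS]; omega
    · rw [Finset.card_insert_of_notMem haS]; omega
    · have h5 : ((S - S) ∪ (S.filter fun s => a - s ∉ S - S).image fun s => a - s) ⊆
          insert a S - insert a S := by
        apply Finset.union_subset
        · exact Finset.sub_subset_sub (Finset.subset_insert _ _) (Finset.subset_insert _ _)
        · intro g hg
          obtain ⟨s, hs, rfl⟩ := Finset.mem_image.mp hg
          exact Finset.sub_mem_sub (Finset.mem_insert_self _ _)
            (Finset.mem_insert_of_mem (Finset.mem_filter.mp hs).1)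
      have h6 : Disjoint (S - S) ((S.filter fun s => a - s ∉ S - S).image fun s => a - s) := by
        rw [Finset.disjoint_left]
        intro g hg hg2
        obtain ⟨s, hs, rfl⟩ := Finset.mem_image.mp hg2
        exact (Finset.mem_filter.mp hs).2 hg
      have h7 : ((S.filter fun s => a - s ∉ S - S).image fun s => a - s).card =
          (S.filter fun s => a - s ∉ S - S).card := by
        apply Finset.card_image_of_injective
        exact sub_right_injective
      have h8 := Finset.card_le_card h5
      rw [Finset.card_union_of_disjoint h6, h7] at h8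
      have h9 : (S.filter fun s => a - s ∈ S - S).card + (S.filter fun s => a - s ∉ S - S).card
          = S.card := Finset.card_filter_add_card_filter_not _
      have h10 : (j + 1) * (j + 1 - 1) = j * (j - 1) + 2 * j := by
        cases j with
        | zero => rfl
        | succ i => simp; ring
      rw [h10]
      omega

/-- A set `S ⊆ A` of size `≤ 2 s` with at least `s² / 2` differences. -/
theorem exists_S (A : Finset G) (s : ℕ) (hA : A.card = s ^ 2) :
    ∃ S ⊆ A, S.card ≤ 2 * s ∧ s ^ 2 ≤ 2 * (S - S).card := by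
  obtain ⟨S, hSA, hSc, h | ⟨_, h⟩⟩ := greedy A (2 * s)
  · exact ⟨S, hSA, hSc, by rw [← hA]; exact h⟩
  · refine ⟨S, hSA, hSc, ?_⟩
    rcases Nat.eq_zero_or_pos s with rfl | hs
    · simp
    · obtain ⟨u, rfl⟩ : ∃ u, s = u + 1 := ⟨s - 1, by omega⟩
      have : 2 * (u + 1) - 1 = 2 * u + 1 := by omega
      rw [this] at h
      nlinarith

/-- Ruzsa covering. -/
theorem exists_X {A S : Finset G} (hSA : S ⊆ A) (hS : S.Nonempty) :
    ∃ X ⊆ A, X.card * S.card ≤ (A - A).card ∧ ∀ a ∈ A, ∃ x ∈ X, ∃ p ∈ S, ∃ q ∈ S, a = x + p - q := by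
  have hSpos : (0 : ℝ) < S.card := by exact_mod_cast Finset.card_pos.mpr hS
  have hneg : (-S).Nonempty := hS.neg
  obtain ⟨X, hXA, hXc, hcov⟩ := Finset.ruzsa_covering_add (A := A) (B := -S)
    (K := ((A + -S).card : ℝ) / S.card) hneg
    (by rw [Finset.card_neg, div_mul_cancel₀ _ hSpos.ne'])
  refine ⟨X, hXA, ?_, ?_⟩
  · rw [le_div_iff₀ hSpos] at hXc
    have h1 : X.card * S.card ≤ (A + -S).card := by exact_mod_cast hXc
    refine h1.trans (Finset.card_le_card ?_)
    rw [← sub_eq_add_neg]
    exact Finset.sub_subset_sub (Finset.Subset.refl _) hSA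
  · intro a ha
    obtain ⟨x, hx, y, hy, rfl⟩ := Finset.mem_add.mp (hcov ha)
    obtain ⟨p, hp, q, hq, rfl⟩ := Finset.mem_sub.mp hy
    rw [Finset.mem_neg] at hp hq
    obtain ⟨p', hp', rfl⟩ := hp
    obtain ⟨q', hq', rfl⟩ := hq
    exact ⟨x, hx, q', hq', p', hp', by abel⟩

/-- Parametrise a small nonempty set by a tuple. -/
theorem exists_tuple {B : Finset G} (hB : B.Nonempty) (m : ℕ) (hm : B.card ≤ m) :
    ∃ b : Fin m → G, Finset.univ.image b = B := by
  have : Nonempty B := hB.to_subtype
  obtain ⟨f⟩ := Function.Embedding.nonempty_of_card_le (α := B) (β := Fin m)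
    (by simpa using hm)
  refine ⟨fun i => (Function.invFun f i : B), ?_⟩
  ext g
  simp only [Finset.mem_image, Finset.mem_univ, true_and]
  constructor
  · rintro ⟨i, rfl⟩
    exact (Function.invFun f i : B).2
  · intro hg
    exact ⟨f ⟨g, hg⟩, by rw [Function.leftInverse_invFun f.injective]⟩

/-- The controlling tuple. -/
theorem exists_control {A : Finset G} {s κ : ℕ} (hs : 0 < s) (hA : A.card = s ^ 2)
    (hκ : (A - A).card < (κ + 1) * s ^ 2) :
    ∃ b : Fin (2 * s * (κ + 2)) → G, (∀ i, b i ∈ A) ∧
      (∀ a ∈ A, ∃ i j l, a = b i + b j - b l) ∧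
      s ^ 2 ≤ 2 * (Finset.univ.image b - Finset.univ.image b).card ∧
      Module.finrank ℚ (F6 b) ≤ 6 * κ + 4 := by
  obtain ⟨S, hSA, hSc, hSS⟩ := exists_S A s hA
  have hSne : S.Nonempty := by
    rw [Finset.nonempty_iff_ne_empty]
    rintro rfl
    simp at hSS
    omega
  obtain ⟨X, hXA, hXc, hcov⟩ := exists_X hSA hSne
  have hs2 : s ≤ 2 * S.card := by
    by_contra h
    push Not at h
    have h1 : (S - S).card ≤ S.card * S.card := Finset.card_sub_le
    nlinarith
  have hXc2 : X.card ≤ 2 * (κ + 1) * s := by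
    have h1 : X.card * s ≤ 2 * (X.card * S.card) := by nlinarith
    have h2 : X.card * s < (2 * (κ + 1) * s) * s := by
      calc X.card * s ≤ 2 * (A - A).card := h1.trans (Nat.mul_le_mul_left _ hXc)
        _ < 2 * ((κ + 1) * s ^ 2) := by omega
        _ = _ := by ring
    exact (Nat.lt_of_mul_lt_mul_right h2).le
  have hBc : (X ∪ S).card ≤ 2 * s * (κ + 2) := by
    calc (X ∪ S).card ≤ X.card + S.card := Finset.card_union_le _ _
      _ ≤ 2 * (κ + 1) * s + 2 * s := Nat.add_le_add hXc2 hSc
      _ = _ := by ring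
  have hBne : (X ∪ S).Nonempty := hSne.mono Finset.subset_union_right
  obtain ⟨b, hb⟩ := exists_tuple hBne _ hBc
  have hbA : ∀ i, b i ∈ A := by
    intro i
    have : b i ∈ X ∪ S := by rw [← hb]; exact Finset.mem_image_of_mem _ (Finset.mem_univ _)
    rcases Finset.mem_union.mp this with h | h
    · exact hXA h
    · exact hSA h
  have hidx : ∀ g ∈ X ∪ S, ∃ i, b i = g := by
    intro g hg
    rw [← hb] at hg
    obtain ⟨i, _, hi⟩ := Finset.mem_image.mp hg
    exact ⟨i, hi⟩
  have hcov2 : ∀ a ∈ A, ∃ i j l, a = b i + b j - b l := by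
    intro a ha
    obtain ⟨x, hx, p, hp, q, hq, hapq⟩ := hcov a ha
    obtain ⟨i, hi⟩ := hidx x (Finset.mem_union_left _ hx)
    obtain ⟨j, hj⟩ := hidx p (Finset.mem_union_right _ hp)
    obtain ⟨l, hl⟩ := hidx q (Finset.mem_union_right _ hq)
    exact ⟨i, j, l, by rw [hi, hj, hl]; exact hapq⟩
  refine ⟨b, hbA, hcov2, ?_, ?_⟩
  · rw [hb]
    refine hSS.trans (Nat.mul_le_mul_left _ (Finset.card_le_card ?_))
    exact Finset.sub_subset_sub Finset.subset_union_right Finset.subset_union_right
  · have hAne : A.Nonempty := hSne.mono hSA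
    have h1 := rank_le_diff hAne
    have h2 := finrank_F6_le b A hbA hcov2
    rw [hA] at h1
    have h3 : (Module.finrank ℚ (F2 A) + 1) * s ^ 2 < (6 * (κ + 1)) * s ^ 2 := by
      calc _ ≤ _ := h1
        _ < 6 * ((κ + 1) * s ^ 2) := by omega
        _ = _ := by ring
    have h4 := Nat.lt_of_mul_lt_mul_right h3
    omega

/-- Plünnecke: `|A + A - A| |A|² ≤ |A - A|³`. -/
theorem card_add_add_sub {A : Finset G} (hA : A.Nonempty) :
    (A + A - A).card * A.card ^ 2 ≤ (A - A).card ^ 3 := by
  have h := Finset.pluennecke_ruzsa_inequality_nsmul_sub_nsmul_sub hA A 2 1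
  rw [two_nsmul, one_nsmul] at h
  have hpos : (0 : ℚ≥0) < A.card := by exact_mod_cast Finset.card_pos.mpr hA
  have h2 : (((A + A - A).card * A.card ^ 2 : ℕ) : ℚ≥0) ≤ (((A - A).card ^ 3 : ℕ) : ℚ≥0) := by
    push_cast
    calc ((A + A - A).card : ℚ≥0) * (A.card : ℚ≥0) ^ 2
        ≤ (((A - A).card / A.card : ℚ≥0) ^ (2 + 1) * A.card) * (A.card : ℚ≥0) ^ 2 := by gcongr
      _ = (((A - A).card / A.card : ℚ≥0) * A.card) ^ 3 := by ring
      _ = ((A - A).card : ℚ≥0) ^ 3 := by rw [div_mul_cancel₀ _ hpos.ne']
  exact_mod_cast h2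

end RamCay384
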