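import Mathlib

/-!
Random symmetric sets: the union bound.
-/

open scoped Pointwise
open Finset

namespace RamCay384

variable {G : Type*} [AddCommGroup G] [DecidableEq G]

theorem card_const_on {α : Type*} [Fintype α] [DecidableEq α] (T : Finset α) (c : Bool) :
    (Finset.univ.filter fun χ : α → Bool => ∀ x ∈ T, χ x = c).card * 2 ^ T.card =
      Fintype.card (α → Bool) := by
  have h1 : (Finset.univ.filter fun χ : α → Bool => ∀ x ∈ T, χ x = c) =
      Fintype.piFinset (fun x => if x ∈ T then {c} else Finset.univ) := by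
    ext χ
    simp only [Finset.mem_filter, Finset.mem_univ, true_and, Fintype.mem_piFinset]
    constructor
    · intro h x
      split_ifs with hx
      · simp [h x hx]
      · simp
    · intro h x hx
      have := h x
      rw [if_pos hx] at this
      simpa using this
  rw [h1, Fintype.card_piFinset, Fintype.card_pi]
  have h2 : ∀ x, (if x ∈ T then ({c} : Finset Bool) else Finset.univ).card =
      if x ∈ T then 1 else 2 := by
    intro x; split_ifs <;> simp
  have h3 : (2 : ℕ) ^ T.card = ∏ x : α, if x ∈ T then 2 else 1 := by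
    rw [Finset.prod_ite_mem, Finset.univ_inter, Finset.prod_const]
  rw [h3]
  simp only [h2]
  rw [← Finset.prod_mul_distrib]
  apply Finset.prod_congr rfl
  intro x _
  split_ifs <;> simp

/-- The unordered pair `{x, -x}`. -/
def pr (x : G) : Finset G := {x, -x}

theorem pr_neg (x : G) : pr (-x) = pr x := by
  unfold pr
  rw [neg_neg, Finset.pair_comm]

theorem pr_eq {x y : G} (h : pr x = pr y) : x = y ∨ x = -y := by
  have : x ∈ pr y := by rw [← h]; simp [pr]
  simpa [pr] using this

/-- The set of pairs of nonzero differences of `B`. -/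
def tset (B : Finset G) : Finset (Finset G) := ((B - B).erase 0).image pr

theorem card_tset (B : Finset G) : (B - B).card ≤ 2 * (tset B).card + 1 := by
  have h1 : ((B - B).erase 0).card ≤ 2 * (tset B).card := by
    apply Finset.card_le_mul_card_image
    intro T hT
    obtain ⟨y, _, rfl⟩ := Finset.mem_image.mp hT
    calc (((B - B).erase 0).filter fun x => pr x = pr y).card ≤ ({y, -y} : Finset G).card := by
          apply Finset.card_le_card
          intro x hx
          rcases pr_eq (Finset.mem_filter.mp hx).2 with h | h <;> simp [h]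
      _ ≤ 2 := Finset.card_le_two
  have h2 : (B - B).card ≤ ((B - B).erase 0).card + 1 := by
    have := Finset.pred_card_le_card_erase (s := B - B) (a := 0)
    omega
  omega

theorem tset_mono {B A : Finset G} (h : B ⊆ A) : tset B ⊆ tset A :=
  Finset.image_subset_image (Finset.erase_subset_erase _ (Finset.sub_subset_sub h h))

/-- The colourings for which `B` is homogeneous. -/
def bad [Fintype G] (B : Finset G) : Finset (Finset G → Bool) :=
  Finset.univ.filter fun χ => (∀ T ∈ tset B, χ T = true) ∨ (∀ T ∈ tset B, χ T = false)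

theorem card_bad [Fintype G] (B : Finset G) (τ : ℕ) (hτ : τ ≤ (tset B).card) :
    (bad B).card * 2 ^ τ ≤ 2 * Fintype.card (Finset G → Bool) := by
  have h1 : (bad B).card ≤
      (Finset.univ.filter fun χ : Finset G → Bool => ∀ T ∈ tset B, χ T = true).card +
      (Finset.univ.filter fun χ : Finset G → Bool => ∀ T ∈ tset B, χ T = false).card := by
    unfold bad
    rw [Finset.filter_or]
    exact Finset.card_union_le _ _
  have h2 := card_const_on (tset B) true
  have h3 := card_const_on (tset B) false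
  calc (bad B).card * 2 ^ τ ≤ (bad B).card * 2 ^ (tset B).card :=
        Nat.mul_le_mul_left _ (Nat.pow_le_pow_right (by norm_num) hτ)
    _ ≤ _ := Nat.mul_le_mul_right _ h1
    _ = 2 * Fintype.card (Finset G → Bool) := by rw [add_mul, h2, h3]; ring

/-- Union bound for one family. -/
theorem card_biUnion_bad [Fintype G] (F : Finset (Finset G)) (τ c : ℕ)
    (hτ : ∀ B ∈ F, τ ≤ (tset B).card) (hF : F.card * 2 ^ (c + 1) ≤ 2 ^ τ) :
    ((F.biUnion bad).card : ℝ) ≤ Fintype.card (Finset G → Bool) * (1 / 2) ^ c := by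
  have h1 : (F.biUnion bad).card ≤ ∑ B ∈ F, (bad B).card := Finset.card_biUnion_le
  have h2 : (∑ B ∈ F, (bad B).card) * 2 ^ τ ≤
      F.card * (2 * Fintype.card (Finset G → Bool)) := by
    rw [Finset.sum_mul, ← smul_eq_mul, ← Finset.sum_const]
    exact Finset.sum_le_sum fun B hB => card_bad B τ (hτ B hB)
  have h3 : (F.biUnion bad).card * 2 ^ τ * 2 ^ c ≤ Fintype.card (Finset G → Bool) * 2 ^ τ := by
    calc (F.biUnion bad).card * 2 ^ τ * 2 ^ c
        ≤ (∑ B ∈ F, (bad B).card) * 2 ^ τ * 2 ^ c := by gcongr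
      _ ≤ F.card * (2 * Fintype.card (Finset G → Bool)) * 2 ^ c := by gcongr
      _ = (F.card * 2 ^ (c + 1)) * Fintype.card (Finset G → Bool) := by ring
      _ ≤ 2 ^ τ * Fintype.card (Finset G → Bool) := by gcongr
      _ = _ := by ring
  have h4 : (F.biUnion bad).card * 2 ^ c ≤ Fintype.card (Finset G → Bool) := by
    have : ((F.biUnion bad).card * 2 ^ c) * 2 ^ τ ≤ Fintype.card (Finset G → Bool) * 2 ^ τ := by
      calc _ = (F.biUnion bad).card * 2 ^ τ * 2 ^ c := by ring
        _ ≤ _ := h3
    exact Nat.le_of_mul_le_mul_right this (by positivity)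
  rw [one_div, inv_pow, ← div_eq_mul_inv, le_div_iff₀ (by positivity)]
  exact_mod_cast h4

/-- Binomial bound. -/
theorem choose_le (E k a : ℕ) (hE : E ≤ a * k) : E.choose k ≤ (4 * a) ^ k := by
  have h1 : (k : ℝ) ^ k ≤ 4 ^ k * (k.factorial : ℝ) := by
    have h := Real.pow_div_factorial_le_exp (x := (k : ℝ)) (by positivity) k
    rw [div_le_iff₀ (by positivity)] at h
    refine h.trans ?_
    apply mul_le_mul_of_nonneg_right _ (by positivity)
    have : Real.exp (k : ℝ) = Real.exp 1 ^ k := by rw [← Real.exp_nat_mul]; ring_nf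
    rw [this]
    apply pow_le_pow_left₀ (Real.exp_pos 1).le
    have := Real.exp_one_lt_d9
    linarith
  have h1' : k ^ k ≤ 4 ^ k * k.factorial := by exact_mod_cast h1
  have h2 : k.factorial * E.choose k ≤ E ^ k := by
    rw [← Nat.descFactorial_eq_factorial_mul_choose]
    exact Nat.descFactorial_le_pow _ _
  have h3 : k.factorial * E.choose k ≤ k.factorial * (4 * a) ^ k := by
    calc _ ≤ E ^ k := h2
      _ ≤ (a * k) ^ k := Nat.pow_le_pow_left hE k
      _ = a ^ k * k ^ k := mul_pow _ _ _
      _ ≤ a ^ k * (4 ^ k * k.factorial) := Nat.mul_le_mul_left _ h1'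
      _ = _ := by rw [mul_pow]; ring
  exact Nat.le_of_mul_le_mul_left h3 (Nat.factorial_pos k)

theorem cube_le_two_pow (q : ℕ) (hq : 32 ≤ q) : 2 ^ 11 * (q + 1) ^ 3 ≤ 2 ^ q := by
  induction q, hq using Nat.le_induction with
  | base => norm_num
  | succ q hq ih =>
    have h1 : (q + 1 + 1) ^ 3 ≤ 2 * (q + 1) ^ 3 := by
      obtain ⟨u, rfl⟩ := Nat.exists_eq_add_of_le hq
      ring_nf
      nlinarith [sq_nonneg u, mul_nonneg (sq_nonneg u) (Nat.zero_le u)]
    calc 2 ^ 11 * (q + 1 + 1) ^ 3 ≤ 2 ^ 11 * (2 * (q + 1) ^ 3) := Nat.mul_le_mul_left _ h1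
      _ = 2 * (2 ^ 11 * (q + 1) ^ 3) := by ring
      _ ≤ 2 * 2 ^ q := Nat.mul_le_mul_left _ ih
      _ = 2 ^ (q + 1) := by ring

theorem cube_le_two_pow' (κ : ℕ) (hκ : 256 ≤ κ) : 4 * (κ + 1) ^ 3 ≤ 2 ^ (κ / 8) := by
  have h1 : κ + 1 ≤ 8 * (κ / 8 + 1) := by omega
  calc 4 * (κ + 1) ^ 3 ≤ 4 * (8 * (κ / 8 + 1)) ^ 3 :=
        Nat.mul_le_mul_left _ (Nat.pow_le_pow_left h1 3)
    _ = 2 ^ 11 * (κ / 8 + 1) ^ 3 := by ring
    _ ≤ _ := cube_le_two_pow _ (by omega)

end RamCay384
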