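import Mathlib
import Pool.Agent.RamCay384.Count
import Pool.Agent.RamCay384.Cover
import Pool.Agent.RamCay384.Random

/-!
Random Cayley graphs on finite abelian groups with few generators.
-/

open scoped Pointwise
open Finset

namespace RamCay384

variable {G : Type*} [AddCommGroup G] [DecidableEq G] [Fintype G]

/-- The first family: small sets of small rank with many differences. -/
noncomputable def fam1 (G : Type*) [AddCommGroup G] [DecidableEq G] [Fintype G]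
    (m t k : ℕ) : Finset (Finset G) := by
  classical
  exact (Finset.univ.filter fun b : Fin m → G => Module.finrank ℚ (F6 b) ≤ t ∧
    k ≤ 2 * (Finset.univ.image b - Finset.univ.image b).card).image fun b => Finset.univ.image b

theorem card_fam1 {n : ℕ} (π : (Fin n → ℤ) →+ G) (hπ : Function.Surjective π)
    (m t k : ℕ) (hm : 1 ≤ m) :
    (fam1 G m t k).card ≤ m ^ (12 * m) * Nat.card G ^ t * 12 ^ (m * n) := by
  classical
  refine le_trans ?_ (card_small_rank π hπ m t hm)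
  unfold fam1
  refine Finset.card_image_le.trans ?_
  rw [Nat.card_eq_fintype_card, Fintype.card_subtype]
  apply Finset.card_le_card
  intro b hb
  have := Finset.mem_filter.mp hb
  exact Finset.mem_filter.mpr ⟨Finset.mem_univ _, this.2.1⟩

/-- The set `B + B - B` of a tuple. -/
def Eset {m : ℕ} (b : Fin m → G) : Finset G :=
  Finset.univ.image b + Finset.univ.image b - Finset.univ.image b

/-- The second family: sets controlled by a small tuple. -/
noncomputable def fam2 (G : Type*) [AddCommGroup G] [DecidableEq G] [Fintype G]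
    (m t k a D : ℕ) : Finset (Finset G) := by
  classical
  exact (Finset.univ.filter fun b : Fin m → G => Module.finrank ℚ (F6 b) ≤ t ∧
    (Eset b).card ≤ a * k).biUnion fun b =>
      ((Eset b).powersetCard k).filter fun A => D ≤ (A - A).card

theorem card_fam2 {n : ℕ} (π : (Fin n → ℤ) →+ G) (hπ : Function.Surjective π)
    (m t k a D : ℕ) (hm : 1 ≤ m) :
    (fam2 G m t k a D).card ≤
      (m ^ (12 * m) * Nat.card G ^ t * 12 ^ (m * n)) * (4 * a) ^ k := by
  classical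
  unfold fam2
  refine Finset.card_biUnion_le.trans ?_
  have h1 : ∀ b ∈ (Finset.univ.filter fun b : Fin m → G => Module.finrank ℚ (F6 b) ≤ t ∧
      (Eset b).card ≤ a * k),
      (((Eset b).powersetCard k).filter fun A => D ≤ (A - A).card).card ≤ (4 * a) ^ k := by
    intro b hb
    refine (Finset.card_filter_le _ _).trans ?_
    rw [Finset.card_powersetCard]
    exact choose_le _ _ _ (Finset.mem_filter.mp hb).2.2
  refine (Finset.sum_le_sum h1).trans ?_
  rw [Finset.sum_const, smul_eq_mul]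
  apply Nat.mul_le_mul_right
  refine le_trans ?_ (card_small_rank π hπ m t hm)
  rw [Nat.card_eq_fintype_card, Fintype.card_subtype]
  apply Finset.card_le_card
  intro b hb
  have := Finset.mem_filter.mp hb
  exact Finset.mem_filter.mpr ⟨Finset.mem_univ _, this.2.1⟩

theorem mem_fam1 {A : Finset G} {s : ℕ} (hs : 0 < s) (hA : A.card = s ^ 2)
    (hD : (A - A).card < 256 * s ^ 2) :
    ∃ B ∈ fam1 G (2 * s * 257) 1534 (s ^ 2), B ⊆ A := by
  classical
  obtain ⟨b, hbA, -, hdiff, hrank⟩ := exists_control (κ := 255) hs hA hD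
  refine ⟨Finset.univ.image b, ?_, ?_⟩
  · unfold fam1
    exact Finset.mem_image.mpr ⟨b, Finset.mem_filter.mpr ⟨Finset.mem_univ _, hrank, hdiff⟩, rfl⟩
  · intro g hg
    obtain ⟨i, _, rfl⟩ := Finset.mem_image.mp hg
    exact hbA i

theorem mem_fam2 {A : Finset G} {s κ : ℕ} (hs : 0 < s) (hA : A.card = s ^ 2)
    (h1 : κ * s ^ 2 ≤ (A - A).card) (h2 : (A - A).card < (κ + 1) * s ^ 2) :
    A ∈ fam2 G (2 * s * (κ + 2)) (6 * κ + 4) (s ^ 2) ((κ + 1) ^ 3) (κ * s ^ 2) := by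
  classical
  obtain ⟨b, hbA, hcov, -, hrank⟩ := exists_control hs hA h2
  have hAne : A.Nonempty := by
    apply Finset.card_pos.mp
    rw [hA]; positivity
  unfold fam2
  rw [Finset.mem_biUnion]
  refine ⟨b, Finset.mem_filter.mpr ⟨Finset.mem_univ _, hrank, ?_⟩, ?_⟩
  · have hsub : Finset.univ.image b ⊆ A := by
      intro g hg
      obtain ⟨i, _, rfl⟩ := Finset.mem_image.mp hg
      exact hbA i
    have h3 : (Eset b).card ≤ (A + A - A).card := by
      apply Finset.card_le_card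
      exact Finset.sub_subset_sub (Finset.add_subset_add hsub hsub) hsub
    have h4 := card_add_add_sub hAne
    rw [hA] at h4
    have h5 : (A + A - A).card * (s ^ 2) ^ 2 ≤ ((κ + 1) ^ 3 * s ^ 2) * (s ^ 2) ^ 2 := by
      calc _ ≤ (A - A).card ^ 3 := h4
        _ ≤ ((κ + 1) * s ^ 2) ^ 3 := Nat.pow_le_pow_left h2.le 3
        _ = _ := by ring
    exact h3.trans (Nat.le_of_mul_le_mul_right h5 (by positivity))
  · rw [Finset.mem_filter, Finset.mem_powersetCard]
    refine ⟨⟨?_, hA⟩, h1⟩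
    intro a ha
    obtain ⟨i, j, l, rfl⟩ := hcov a ha
    unfold Eset
    exact Finset.sub_mem_sub (Finset.add_mem_add (Finset.mem_image_of_mem _ (Finset.mem_univ _))
      (Finset.mem_image_of_mem _ (Finset.mem_univ _))) (Finset.mem_image_of_mem _ (Finset.mem_univ _))

theorem comb3 (a b c x y z : ℕ) :
    (2 ^ a) ^ x * (2 ^ b) ^ y * (2 ^ c) ^ z = 2 ^ (a * x + b * y + c * z) := by
  rw [← pow_mul, ← pow_mul, ← pow_mul, ← pow_add, ← pow_add]

theorem comb4 (a b c d x y z u : ℕ) :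
    (2 ^ a) ^ x * (2 ^ b) ^ y * (2 ^ c) ^ z * (2 ^ d) ^ u =
      2 ^ (a * x + b * y + c * z + d * u) := by
  rw [comb3, ← pow_mul, ← pow_add]

/-- Parameters: `N ≤ 2 ^ e`, `e ≤ w²`, `n ≤ w`, `s = 2 ^ 22 w`. -/
theorem count1 {n e w : ℕ} (π : (Fin n → ℤ) →+ G) (hπ : Function.Surjective π)
    (hw : 1 ≤ w) (hN : Nat.card G ≤ 2 ^ e) (he : e ≤ w ^ 2) (hn : n ≤ w) :
    (fam1 G (2 * (2 ^ 22 * w) * 257) 1534 ((2 ^ 22 * w) ^ 2)).card * 2 ^ (2 + 1) ≤
      2 ^ (2 ^ 41 * w ^ 2) := by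
  set m := 2 * (2 ^ 22 * w) * 257 with hm
  have hw2 : w < 2 ^ w := Nat.lt_two_pow_self
  have hm2 : m ≤ 2 ^ (w + 32) := by
    rw [hm, pow_add]
    calc 2 * (2 ^ 22 * w) * 257 = (514 * 2 ^ 22) * w := by ring
      _ ≤ 2 ^ 32 * 2 ^ w := Nat.mul_le_mul (by norm_num) hw2.le
      _ = _ := by ring
  have h1 := card_fam1 π hπ m 1534 ((2 ^ 22 * w) ^ 2) (by omega)
  have h2 : m ^ (12 * m) * Nat.card G ^ 1534 * 12 ^ (m * n) ≤
      2 ^ ((w + 32) * (12 * m) + e * 1534 + 4 * (m * n)) := by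
    rw [← comb3 (w + 32) e 4]
    apply Nat.mul_le_mul (Nat.mul_le_mul _ _)
    · exact Nat.pow_le_pow_left (by norm_num) _
    · exact Nat.pow_le_pow_left hm2 _
    · exact Nat.pow_le_pow_left hN _
  calc _ ≤ 2 ^ ((w + 32) * (12 * m) + e * 1534 + 4 * (m * n)) * 2 ^ (2 + 1) :=
        Nat.mul_le_mul_right _ (h1.trans h2)
    _ = 2 ^ ((w + 32) * (12 * m) + e * 1534 + 4 * (m * n) + 3) := by rw [← pow_add]
    _ ≤ _ := by
      apply Nat.pow_le_pow_right (by norm_num)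
      have e1 : (w + 32) * (12 * m) ≤ 33 * w * (12 * m) := Nat.mul_le_mul_right _ (by omega)
      have e2 : 4 * (m * n) ≤ 4 * (m * w) := by gcongr
      have e3 : 1 ≤ w ^ 2 := Nat.one_le_pow _ _ hw
      have e4 : 33 * w * (12 * m) = (33 * 12 * (2 * 2 ^ 22 * 257)) * w ^ 2 := by rw [hm]; ring
      have e5 : 4 * (m * w) = (4 * (2 * 2 ^ 22 * 257)) * w ^ 2 := by rw [hm]; ring
      rw [e4] at e1
      rw [e5] at e2
      norm_num at e1 e2 ⊢
      omega

theorem count2 {n e w κ : ℕ} (π : (Fin n → ℤ) →+ G) (hπ : Function.Surjective π)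
    (hw : 1 ≤ w) (hN : Nat.card G ≤ 2 ^ e) (he : e ≤ w ^ 2) (hn : n ≤ w)
    (hκ1 : 256 ≤ κ) (hκ2 : κ ≤ (2 ^ 22 * w) ^ 2) :
    (fam2 G (2 * (2 ^ 22 * w) * (κ + 2)) (6 * κ + 4) ((2 ^ 22 * w) ^ 2) ((κ + 1) ^ 3)
      (κ * (2 ^ 22 * w) ^ 2)).card * 2 ^ (κ + 2 + 1) ≤ 2 ^ (κ * (2 ^ 42 * w ^ 2)) := by
  set m := 2 * (2 ^ 22 * w) * (κ + 2) with hm
  have hw2 : w < 2 ^ w := Nat.lt_two_pow_self
  have hmle : m ≤ 2 ^ 24 * w * κ := by
    rw [hm]
    calc 2 * (2 ^ 22 * w) * (κ + 2) ≤ 2 * (2 ^ 22 * w) * (2 * κ) :=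
          Nat.mul_le_mul_left _ (by omega)
      _ = _ := by ring
  have hm1 : 1 ≤ m := by
    rw [hm]
    have : 0 < 2 * (2 ^ 22 * w) * (κ + 2) := by positivity
    omega
  have hm2 : m ≤ 2 ^ (3 * w + 68) := by
    calc m ≤ 2 ^ 24 * w * κ := hmle
      _ ≤ 2 ^ 24 * w * (2 ^ 22 * w) ^ 2 := Nat.mul_le_mul_left _ hκ2
      _ = 2 ^ 68 * w ^ 3 := by ring
      _ ≤ 2 ^ 68 * (2 ^ w) ^ 3 := by gcongr
      _ = _ := by rw [← pow_mul, pow_add]; ring
  have h1 := card_fam2 π hπ m (6 * κ + 4) ((2 ^ 22 * w) ^ 2) ((κ + 1) ^ 3)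
    (κ * (2 ^ 22 * w) ^ 2) hm1
  have h2 : (m ^ (12 * m) * Nat.card G ^ (6 * κ + 4) * 12 ^ (m * n)) *
      (4 * (κ + 1) ^ 3) ^ ((2 ^ 22 * w) ^ 2) ≤
      2 ^ ((3 * w + 68) * (12 * m) + e * (6 * κ + 4) + 4 * (m * n) +
        (κ / 8) * ((2 ^ 22 * w) ^ 2)) := by
    rw [← comb4 (3 * w + 68) e 4 (κ / 8)]
    apply Nat.mul_le_mul (Nat.mul_le_mul (Nat.mul_le_mul _ _) _)
    · exact Nat.pow_le_pow_left (cube_le_two_pow' κ hκ1) _
    · exact Nat.pow_le_pow_left hm2 _
    · exact Nat.pow_le_pow_left hN _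
    · exact Nat.pow_le_pow_left (by norm_num) _
  calc _ ≤ 2 ^ ((3 * w + 68) * (12 * m) + e * (6 * κ + 4) + 4 * (m * n) +
        (κ / 8) * ((2 ^ 22 * w) ^ 2)) * 2 ^ (κ + 2 + 1) :=
        Nat.mul_le_mul_right _ (h1.trans h2)
    _ = 2 ^ ((3 * w + 68) * (12 * m) + e * (6 * κ + 4) + 4 * (m * n) +
        (κ / 8) * ((2 ^ 22 * w) ^ 2) + (κ + 2 + 1)) := by rw [← pow_add]
    _ ≤ _ := by
      apply Nat.pow_le_pow_right (by norm_num)
      have e3 : 1 ≤ w ^ 2 := Nat.one_le_pow _ _ hw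
      have e1 : (3 * w + 68) * (12 * m) ≤ (71 * 12 * 2 ^ 24) * (κ * w ^ 2) := by
        calc (3 * w + 68) * (12 * m) ≤ (71 * w) * (12 * (2 ^ 24 * w * κ)) :=
              Nat.mul_le_mul (by omega) (Nat.mul_le_mul_left _ hmle)
          _ = _ := by ring
      have e2 : 4 * (m * n) ≤ (4 * 2 ^ 24) * (κ * w ^ 2) := by
        calc 4 * (m * n) ≤ 4 * ((2 ^ 24 * w * κ) * w) := by gcongr
          _ = _ := by ring
      have e4 : e * (6 * κ + 4) ≤ 10 * (κ * w ^ 2) := by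
        calc e * (6 * κ + 4) ≤ w ^ 2 * (10 * κ) := Nat.mul_le_mul he (by omega)
          _ = _ := by ring
      have e5 : (κ / 8) * ((2 ^ 22 * w) ^ 2) ≤ 2 ^ 41 * (κ * w ^ 2) := by
        have h8 : 8 * (κ / 8) ≤ κ := Nat.mul_div_le κ 8
        calc (κ / 8) * ((2 ^ 22 * w) ^ 2) = (8 * (κ / 8)) * (2 ^ 41 * w ^ 2) := by ring
          _ ≤ κ * (2 ^ 41 * w ^ 2) := Nat.mul_le_mul_right _ h8
          _ = _ := by ring
      have e6 : κ + 2 + 1 ≤ 4 * (κ * w ^ 2) := by
        calc κ + 2 + 1 ≤ 4 * κ := by omega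
          _ = 4 * (κ * 1) := by ring
          _ ≤ _ := by gcongr
      have e7 : κ * (2 ^ 42 * w ^ 2) = 2 ^ 42 * (κ * w ^ 2) := by ring
      rw [e7]
      norm_num at e1 e2 e4 e5 e6 ⊢
      omega

theorem tset_fam1 {m t k : ℕ} (B : Finset G) (hB : B ∈ fam1 G m t k) :
    k ≤ 4 * (tset B).card + 2 := by
  classical
  unfold fam1 at hB
  obtain ⟨b, hb, rfl⟩ := Finset.mem_image.mp hB
  have h1 := (Finset.mem_filter.mp hb).2.2
  have h2 := card_tset (Finset.univ.image b)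
  omega

theorem tset_fam2 {m t k a D : ℕ} (B : Finset G) (hB : B ∈ fam2 G m t k a D) :
    D ≤ 2 * (tset B).card + 1 := by
  classical
  unfold fam2 at hB
  obtain ⟨b, _, hb⟩ := Finset.mem_biUnion.mp hB
  have h1 := (Finset.mem_filter.mp hb).2
  exact h1.trans (card_tset B)

/-- The main existence statement for a colouring. -/
theorem exists_colouring {n e w : ℕ} (π : (Fin n → ℤ) →+ G) (hπ : Function.Surjective π)
    (hw : 1 ≤ w) (hN : Nat.card G ≤ 2 ^ e) (he : e ≤ w ^ 2) (hn : n ≤ w) :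
    ∃ χ : Finset G → Bool, ∀ A : Finset G, A.card = (2 ^ 22 * w) ^ 2 → χ ∉ bad A := by
  classical
  set s := 2 ^ 22 * w with hs
  have hspos : 0 < s := by positivity
  let F1 := fam1 G (2 * s * 257) 1534 (s ^ 2)
  let F2 : ℕ → Finset (Finset G) := fun κ =>
    if 256 ≤ κ then fam2 G (2 * s * (κ + 2)) (6 * κ + 4) (s ^ 2) ((κ + 1) ^ 3) (κ * s ^ 2) else ∅
  have hs2 : s ^ 2 = 2 ^ 44 * w ^ 2 := by rw [hs]; ring
  have hw2 : 1 ≤ w ^ 2 := Nat.one_le_pow _ _ hw
  have b1 : ((F1.biUnion bad).card : ℝ) ≤ Fintype.card (Finset G → Bool) * (1 / 2) ^ 2 := by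
    apply card_biUnion_bad F1 (2 ^ 41 * w ^ 2) 2
    · intro B hB
      have := tset_fam1 B hB
      rw [hs2] at this
      omega
    · exact count1 π hπ hw hN he hn
  have b2 : ∀ κ ∈ Finset.range (s ^ 2 + 1), (((F2 κ).biUnion bad).card : ℝ) ≤
      Fintype.card (Finset G → Bool) * (1 / 2) ^ (κ + 2) := by
    intro κ hκ
    have hκ2 : κ ≤ s ^ 2 := by have := Finset.mem_range.mp hκ; omega
    by_cases hκ1 : 256 ≤ κ
    · have : F2 κ = fam2 G (2 * s * (κ + 2)) (6 * κ + 4) (s ^ 2) ((κ + 1) ^ 3) (κ * s ^ 2) :=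
        if_pos hκ1
      rw [this]
      apply card_biUnion_bad _ (κ * (2 ^ 42 * w ^ 2)) (κ + 2)
      · intro B hB
        have h1 := tset_fam2 B hB
        rw [hs2] at h1
        have h3 : κ * (2 ^ 44 * w ^ 2) = 4 * (κ * (2 ^ 42 * w ^ 2)) := by ring
        rw [h3] at h1
        have h4 : 1 ≤ κ * (2 ^ 42 * w ^ 2) := by
          have : 0 < κ * (2 ^ 42 * w ^ 2) := by positivity
          omega
        omega
      · exact count2 π hπ hw hN he hn hκ1 hκ2
    · have : F2 κ = ∅ := if_neg hκ1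
      rw [this]
      simp only [Finset.biUnion_empty, Finset.card_empty, Nat.cast_zero]
      positivity
  let Bad : Finset (Finset G → Bool) :=
    F1.biUnion bad ∪ (Finset.range (s ^ 2 + 1)).biUnion fun κ => (F2 κ).biUnion bad
  have hBad : (Bad.card : ℝ) < Fintype.card (Finset G → Bool) := by
    have h1 : (Bad.card : ℝ) ≤ (F1.biUnion bad).card +
        ∑ κ ∈ Finset.range (s ^ 2 + 1), (((F2 κ).biUnion bad).card : ℝ) := by
      have := (Finset.card_union_le (F1.biUnion bad)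
        ((Finset.range (s ^ 2 + 1)).biUnion fun κ => (F2 κ).biUnion bad)).trans
        (Nat.add_le_add_left Finset.card_biUnion_le _)
      exact_mod_cast this
    have h2 : ∑ κ ∈ Finset.range (s ^ 2 + 1), (((F2 κ).biUnion bad).card : ℝ) ≤
        Fintype.card (Finset G → Bool) * (1 / 2) := by
      calc _ ≤ ∑ κ ∈ Finset.range (s ^ 2 + 1),
            (Fintype.card (Finset G → Bool) : ℝ) * (1 / 2) ^ (κ + 2) := Finset.sum_le_sum b2
        _ = Fintype.card (Finset G → Bool) * (1 / 4) *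
            ∑ κ ∈ Finset.range (s ^ 2 + 1), (1 / (2 : ℝ)) ^ κ := by
            rw [Finset.mul_sum]
            apply Finset.sum_congr rfl
            intro κ _
            rw [pow_add]; ring
        _ ≤ Fintype.card (Finset G → Bool) * (1 / 4) * 2 := by
            gcongr
            exact sum_geometric_two_le _
        _ = _ := by ring
    have hpos : (0 : ℝ) < Fintype.card (Finset G → Bool) := by
      exact_mod_cast Fintype.card_pos
    have : (1 / 2 : ℝ) ^ 2 = 1 / 4 := by norm_num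
    rw [this] at b1
    linarith
  have hex : ∃ χ, χ ∉ Bad := by
    by_contra hcon
    push Not at hcon
    have : Bad = Finset.univ := Finset.eq_univ_iff_forall.mpr hcon
    rw [this, Finset.card_univ] at hBad
    exact lt_irrefl _ hBad
  obtain ⟨χ, hχ⟩ := hex
  refine ⟨χ, fun A hA hbadA => ?_⟩
  have hχ1 : ∀ B ∈ F1, χ ∉ bad B := fun B hB h =>
    hχ (Finset.mem_union_left _ (Finset.mem_biUnion.mpr ⟨B, hB, h⟩))
  have hχ2 : ∀ κ ∈ Finset.range (s ^ 2 + 1), ∀ B ∈ F2 κ, χ ∉ bad B := fun κ hκ B hB h =>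
    hχ (Finset.mem_union_right _ (Finset.mem_biUnion.mpr ⟨κ, hκ,
      Finset.mem_biUnion.mpr ⟨B, hB, h⟩⟩))
  by_cases hD : (A - A).card < 256 * s ^ 2
  · obtain ⟨B, hB, hBA⟩ := mem_fam1 hspos hA hD
    apply hχ1 B hB
    have := (Finset.mem_filter.mp hbadA).2
    refine Finset.mem_filter.mpr ⟨Finset.mem_univ _, ?_⟩
    rcases this with h | h
    · exact Or.inl fun T hT => h T (tset_mono hBA hT)
    · exact Or.inr fun T hT => h T (tset_mono hBA hT)
  · push Not at hD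
    have hspos2 : 0 < s ^ 2 := by positivity
    have hκ1 : 256 ≤ (A - A).card / s ^ 2 := (Nat.le_div_iff_mul_le hspos2).mpr hD
    have hle : (A - A).card ≤ s ^ 2 * s ^ 2 := by
      have := Finset.card_sub_le (s := A) (t := A)
      rw [hA] at this
      exact this
    have hκ2 : (A - A).card / s ^ 2 ≤ s ^ 2 := Nat.div_le_of_le_mul hle
    have hmem := mem_fam2 (κ := (A - A).card / s ^ 2) hspos hA (Nat.div_mul_le_self _ _)
      (by
        have := Nat.lt_div_mul_add (a := (A - A).card) hspos2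
        nlinarith)
    refine hχ2 ((A - A).card / s ^ 2) (Finset.mem_range.mpr (by omega)) A ?_ hbadA
    have : F2 ((A - A).card / s ^ 2) = fam2 G (2 * s * ((A - A).card / s ^ 2 + 2))
      (6 * ((A - A).card / s ^ 2) + 4) (s ^ 2) (((A - A).card / s ^ 2 + 1) ^ 3)
      ((A - A).card / s ^ 2 * s ^ 2) := if_pos hκ1
    rw [this]
    exact hmem

/-- **Main theorem.**  If `G` has `n` generators, `|G| ≤ 2 ^ e`, `e ≤ w²` and `n ≤ w`, then `G` has
a Cayley graph whose cliques and independent sets have fewer than `(2²² w)²` elements. -/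
theorem exists_cayley {n e w : ℕ} (π : (Fin n → ℤ) →+ G) (hπ : Function.Surjective π)
    (hw : 1 ≤ w) (hN : Nat.card G ≤ 2 ^ e) (he : e ≤ w ^ 2) (hn : n ≤ w) :
    ∃ S : Set G, (0 : G) ∉ S ∧ (∀ x, x ∈ S → -x ∈ S) ∧
      (∀ A : Finset G, (∀ x ∈ A, ∀ y ∈ A, x ≠ y → y - x ∈ S) → A.card < (2 ^ 22 * w) ^ 2) ∧
      (∀ A : Finset G, (∀ x ∈ A, ∀ y ∈ A, x ≠ y → y - x ∉ S) → A.card < (2 ^ 22 * w) ^ 2) := by
  classical
  obtain ⟨χ, hχ⟩ := exists_colouring π hπ hw hN he hn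
  refine ⟨{x | x ≠ 0 ∧ χ (pr x) = true}, fun h => h.1 rfl, ?_, ?_, ?_⟩
  · rintro x ⟨h0, h1⟩
    exact ⟨neg_ne_zero.mpr h0, by rw [pr_neg]; exact h1⟩
  · intro A hA
    by_contra hcon
    push Not at hcon
    obtain ⟨A', hA', hc⟩ := Finset.exists_subset_card_eq hcon
    apply hχ A' hc
    refine Finset.mem_filter.mpr ⟨Finset.mem_univ _, Or.inl ?_⟩
    intro T hT
    obtain ⟨g, hg, rfl⟩ := Finset.mem_image.mp hT
    obtain ⟨hg0, hg1⟩ := Finset.mem_erase.mp hg
    obtain ⟨y, hy, x, hx, rfl⟩ := Finset.mem_sub.mp hg1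
    exact (hA x (hA' hx) y (hA' hy) (fun h => hg0 (by rw [h, sub_self]))).2
  · intro A hA
    by_contra hcon
    push Not at hcon
    obtain ⟨A', hA', hc⟩ := Finset.exists_subset_card_eq hcon
    apply hχ A' hc
    refine Finset.mem_filter.mpr ⟨Finset.mem_univ _, Or.inr ?_⟩
    intro T hT
    obtain ⟨g, hg, rfl⟩ := Finset.mem_image.mp hT
    obtain ⟨hg0, hg1⟩ := Finset.mem_erase.mp hg
    obtain ⟨y, hy, x, hx, rfl⟩ := Finset.mem_sub.mp hg1
    have h1 := hA x (hA' hx) y (hA' hy) (fun h => hg0 (by rw [h, sub_self]))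
    by_contra h2
    apply h1
    exact ⟨hg0, by simpa using h2⟩

end RamCay384
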