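import Mathlib
import Pool.Agent.RamCay384.Main

/-!
Logarithmic form of the main theorem.
-/

open scoped Pointwise
open Finset

namespace RamCay384

/-- **General theorem.**  A finite nontrivial abelian group `G` generated by `n` elements has a
Cayley graph whose cliques and independent sets have at most `2 ^ 48 (n² + log₂ |G|)` elements. -/
theorem exists_cayley_log {G : Type*} [AddCommGroup G] [Finite G] [Nontrivial G] {n : ℕ}
    (π : (Fin n → ℤ) →+ G) (hπ : Function.Surjective π) :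
    ∃ S : Set G, (0 : G) ∉ S ∧ (∀ x, x ∈ S → -x ∈ S) ∧
      (∀ A : Finset G, (∀ x ∈ A, ∀ y ∈ A, x ≠ y → y - x ∈ S) →
        (A.card : ℝ) ≤ 2 ^ 48 * ((n : ℝ) ^ 2 + Real.logb 2 (Nat.card G))) ∧
      (∀ A : Finset G, (∀ x ∈ A, ∀ y ∈ A, x ≠ y → y - x ∉ S) →
        (A.card : ℝ) ≤ 2 ^ 48 * ((n : ℝ) ^ 2 + Real.logb 2 (Nat.card G))) := by
  classical
  have : Fintype G := Fintype.ofFinite G
  set N := Nat.card G with hN
  have hN2 : 2 ≤ N := Finite.one_lt_card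
  set e := Nat.log 2 N + 1 with he
  set w := n + Nat.sqrt e + 1 with hw
  have h1 : N ≤ 2 ^ e := (Nat.lt_pow_succ_log_self (by norm_num) N).le
  have h2 : e ≤ w ^ 2 := by
    have := Nat.sqrt_lt'.mp (Nat.lt_succ_self (Nat.sqrt e))
    calc e ≤ (Nat.sqrt e + 1) ^ 2 := this.le
      _ ≤ w ^ 2 := Nat.pow_le_pow_left (by omega) 2
  obtain ⟨S, hS0, hSn, hc, hi⟩ := exists_cayley (e := e) (w := w) π hπ (by omega) h1 h2 (by omega)
  set ℓ := Real.logb 2 (N : ℝ) with hℓ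
  have hNpos : (0 : ℝ) < N := by exact_mod_cast (by omega : 0 < N)
  have hlog : ((Nat.log 2 N : ℕ) : ℝ) ≤ ℓ := by
    rw [hℓ, Real.le_logb_iff_rpow_le (by norm_num) hNpos, Real.rpow_natCast]
    exact_mod_cast Nat.pow_log_le_self 2 (by omega)
  have hℓ1 : 1 ≤ ℓ := by
    rw [hℓ, Real.le_logb_iff_rpow_le (by norm_num) hNpos, Real.rpow_one]
    exact_mod_cast hN2
  have hq : ((Nat.sqrt e : ℕ) : ℝ) ^ 2 ≤ 2 * ℓ := by
    have h3 : (Nat.sqrt e) ^ 2 ≤ e := Nat.sqrt_le' e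
    have h4 : ((Nat.sqrt e : ℕ) : ℝ) ^ 2 ≤ (e : ℝ) := by exact_mod_cast h3
    have h5 : (e : ℝ) ≤ ℓ + 1 := by
      rw [he]; push_cast; linarith
    linarith
  have hw2 : (w : ℝ) ^ 2 ≤ 16 * ((n : ℝ) ^ 2 + ℓ) := by
    rw [hw]
    push_cast
    set q : ℝ := ((Nat.sqrt e : ℕ) : ℝ)
    nlinarith [sq_nonneg ((n : ℝ) - q), sq_nonneg ((n : ℝ) - 1), sq_nonneg (q - 1)]
  have hfin : ∀ c : ℕ, c < (2 ^ 22 * w) ^ 2 → (c : ℝ) ≤ 2 ^ 48 * ((n : ℝ) ^ 2 + ℓ) := by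
    intro c hc
    have h6 : (c : ℝ) < ((2 : ℝ) ^ 22 * w) ^ 2 := by exact_mod_cast hc
    calc (c : ℝ) ≤ ((2 : ℝ) ^ 22 * w) ^ 2 := h6.le
      _ = 2 ^ 44 * (w : ℝ) ^ 2 := by ring
      _ ≤ 2 ^ 44 * (16 * ((n : ℝ) ^ 2 + ℓ)) := by gcongr
      _ = _ := by ring
  exact ⟨S, hS0, hSn, fun A hA => hfin _ (hc A hA), fun A hA => hfin _ (hi A hA)⟩

end RamCay384
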